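import Mathlib

open MeasureTheory Filter Topology Finset

namespace Q210.HT

/-- The infinite torus, written additively: the point `θ` stands for `(e^{2πi θ_n})_n`. -/
abbrev TInf : Type := ℕ → UnitAddCircle

/-- Haar probability measure on the infinite torus. -/
noncomputable def m : Measure TInf := Measure.infinitePi fun _ => AddCircle.haarAddCircle

instance : IsProbabilityMeasure m := by unfold m; infer_instance

/-- The Fourier coefficient `\hat f(α) = ∫ f(θ) ∏_n e^{-2πi α_n θ_n} dm(θ)`. -/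
noncomputable def fourierCoef (f : TInf → ℂ) (α : ℕ →₀ ℤ) : ℂ :=
  ∫ θ, (∏ n ∈ α.support, fourier (-α n) (θ n)) * f θ ∂m

/-- `f ∈ H^∞(T^∞)`: `f` is in `L^∞(m)` and `\hat f(α) = 0` unless all entries of `α` are `≥ 0`. -/
def HInfty (f : TInf → ℂ) : Prop :=
  MemLp f ⊤ m ∧ ∀ α : ℕ →₀ ℤ, (∃ n, α n < 0) → fourierCoef f α = 0

/-- The Poisson kernel `P_r(t) = (1 - r²) / |1 - r e^{2πit}|²`. -/
noncomputable def poisson (r : ℝ) (t : UnitAddCircle) : ℝ :=
  (1 - r ^ 2) / ‖1 - (r : ℂ) * fourier 1 t‖ ^ 2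

/-- The value `f(r e^{iθ}) = (f * ⊗_n P_{r_n})(θ)` for a finitely supported vector `r` of radii:
`∫ f(φ) ∏_{n : r_n ≠ 0} P_{r_n}(θ_n - φ_n) dm(φ)` (recall `P_0 = 1`). -/
noncomputable def radialValue (f : TInf → ℂ) (r : ℕ →₀ ℝ) (θ : TInf) : ℂ :=
  ∫ φ, ((∏ n ∈ r.support, poisson (r n) (θ n - φ n) : ℝ) : ℂ) * f φ ∂m

lemma poisson_zero (t : UnitAddCircle) : poisson 0 t = 1 := by
  simp [poisson]

lemma norm_fourier_eq_one (n : ℤ) (t : UnitAddCircle) : ‖(fourier n t : ℂ)‖ = 1 := by
  rw [fourier_apply]; exact Circle.norm_coe _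

/-- product formula for the infinite product measure -/
lemma integral_prod_coord (s : Finset ℕ) (g : ℕ → UnitAddCircle → ℂ)
    (hg : ∀ n, Continuous (g n)) :
    ∫ θ, ∏ n ∈ s, g n (θ n) ∂m = ∏ n ∈ s, ∫ t, g n t ∂AddCircle.haarAddCircle := by
  have h1 : ∀ θ : TInf, ∏ n ∈ s, g n (θ n) = (fun y : (s → UnitAddCircle) =>
      ∏ i : s, g i (y i)) (s.restrict θ) := by
    intro θ
    simp only [Finset.restrict]
    rw [← Finset.prod_coe_sort]
  have h2 := integral_restrict_infinitePi (μ := fun _ : ℕ => (AddCircle.haarAddCircle :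
    Measure UnitAddCircle)) (s := s) (f := fun y : (s → UnitAddCircle) => ∏ i : s, g i (y i))
    (Continuous.aestronglyMeasurable (by fun_prop))
  rw [integral_congr_ae (ae_of_all _ h1)]
  refine h2.trans ?_
  rw [integral_fintype_prod_eq_prod (𝕜 := ℂ) (fun (i : s) => g i)]
  exact (Finset.prod_coe_sort s (fun n => ∫ t, g n t ∂AddCircle.haarAddCircle))

lemma integral_prod_coord_real (s : Finset ℕ) (g : ℕ → UnitAddCircle → ℝ)
    (hg : ∀ n, Measurable (g n)) :
    ∫ θ, ∏ n ∈ s, g n (θ n) ∂m = ∏ n ∈ s, ∫ t, g n t ∂AddCircle.haarAddCircle := by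
  have h1 : ∀ θ : TInf, ∏ n ∈ s, g n (θ n) = (fun y : (s → UnitAddCircle) =>
      ∏ i : s, g i (y i)) (s.restrict θ) := by
    intro θ
    simp only [Finset.restrict]
    rw [← Finset.prod_coe_sort]
  have h2 := integral_restrict_infinitePi (μ := fun _ : ℕ => (AddCircle.haarAddCircle :
    Measure UnitAddCircle)) (s := s) (f := fun y : (s → UnitAddCircle) => ∏ i : s, g i (y i))
    (Measurable.aestronglyMeasurable (by fun_prop))
  rw [integral_congr_ae (ae_of_all _ h1)]
  refine h2.trans ?_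
  rw [integral_fintype_prod_eq_prod (𝕜 := ℝ) (fun (i : s) => g i)]
  exact (Finset.prod_coe_sort s (fun n => ∫ t, g n t ∂AddCircle.haarAddCircle))

/-- Fourier coefficients on one circle -/
lemma integral_fourier (n : ℤ) :
    ∫ t : UnitAddCircle, (fourier n t : ℂ) ∂AddCircle.haarAddCircle = if n = 0 then 1 else 0 := by
  split_ifs with h
  · subst h; simp
  · have := integral_eq_zero_of_add_right_eq_neg (μ := AddCircle.haarAddCircle (T := (1 : ℝ)))
      (fourier_add_half_inv_index h (by norm_num))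
    exact this

/-- The power series `∑ a_d r^d e^{2πidt}`. -/
noncomputable def V (a : ℕ → ℂ) (r : ℝ) (t : UnitAddCircle) : ℂ :=
  ∑' d : ℕ, a d * (r : ℂ) ^ d * fourier (d : ℤ) t

lemma V_term_norm_le (a : ℕ → ℂ) {r : ℝ} (h0 : 0 ≤ r) (h1 : r ≤ 1) (t : UnitAddCircle) (d : ℕ) :
    ‖a d * (r : ℂ) ^ d * fourier (d : ℤ) t‖ ≤ ‖a d‖ := by
  rw [norm_mul, norm_mul, norm_fourier_eq_one, mul_one, norm_pow, Complex.norm_real,
    Real.norm_of_nonneg h0]
  exact mul_le_of_le_one_right (norm_nonneg _) (pow_le_one₀ h0 h1)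

lemma V_summable (a : ℕ → ℂ) (ha : Summable fun d => ‖a d‖) {r : ℝ} (h0 : 0 ≤ r) (h1 : r ≤ 1)
    (t : UnitAddCircle) : Summable fun d : ℕ => a d * (r : ℂ) ^ d * fourier (d : ℤ) t :=
  Summable.of_norm_bounded ha (V_term_norm_le a h0 h1 t)

lemma V_continuous (a : ℕ → ℂ) (ha : Summable fun d => ‖a d‖) {r : ℝ} (h0 : 0 ≤ r) (h1 : r ≤ 1) :
    Continuous (V a r) := by
  apply continuous_tsum (u := fun d => ‖a d‖) _ ha
  · intro d t
    exact V_term_norm_le a h0 h1 t d
  · intro d
    fun_prop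

lemma V_zero (a : ℕ → ℂ) (t : UnitAddCircle) : V a 0 t = a 0 := by
  unfold V
  rw [tsum_eq_single 0]
  · simp
  · intro d hd
    simp [hd]

/-- integrate a power series against a character -/
lemma integral_fourier_mul_V (a : ℕ → ℂ) (ha : Summable fun d => ‖a d‖) (j : ℤ) :
    ∫ t, fourier (-j) t * V a 1 t ∂AddCircle.haarAddCircle =
      if 0 ≤ j then a j.toNat else 0 := by
  have h1 : ∀ t : UnitAddCircle, fourier (-j) t * V a 1 t =
      ∑' d : ℕ, a d * fourier ((d : ℤ) - j) t := by
    intro t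
    unfold V
    rw [← tsum_mul_left]
    congr 1
    ext d
    rw [sub_eq_add_neg, fourier_add]
    push_cast
    ring
  simp_rw [h1]
  rw [← integral_tsum_of_summable_integral_norm]
  · simp_rw [integral_const_mul, integral_fourier]
    split_ifs with h
    · rw [tsum_eq_single j.toNat]
      · rw [if_pos (by omega), mul_one]
      · intro d hd
        rw [if_neg (by omega), mul_zero]
    · have h0 : ∀ d : ℕ, a d * (if (d : ℤ) - j = 0 then (1 : ℂ) else 0) = 0 := by
        intro d
        rw [if_neg (by omega), mul_zero]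
      simp_rw [h0]
      exact tsum_zero
  · intro d
    apply Continuous.integrable_of_hasCompactSupport
    · fun_prop
    · exact HasCompactSupport.of_compactSpace _
  · simp_rw [norm_mul, norm_fourier_eq_one, mul_one]
    simpa using ha

lemma fourier_eq_zpow (n : ℤ) (t : UnitAddCircle) :
    (fourier n t : ℂ) = (fourier 1 t : ℂ) ^ n := by
  rw [fourier_apply, fourier_one, AddCircle.toCircle_zsmul, Circle.coe_zpow]

lemma fourier_neg_eq_conj (t : UnitAddCircle) :
    (fourier (-1) t : ℂ) = (starRingEnd ℂ) (fourier 1 t) := fourier_neg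

lemma poisson_hasSum {r : ℝ} (h0 : 0 ≤ r) (h1 : r < 1) (t : UnitAddCircle) :
    HasSum (fun j : ℕ => (r : ℂ) ^ (j + 1) * (fourier ((j : ℤ) + 1) t + fourier (-((j : ℤ) + 1)) t))
      ((poisson r t : ℂ) - 1) := by
  set z : ℂ := fourier 1 t with hz
  have hz1 : ‖z‖ = 1 := norm_fourier_eq_one 1 t
  have hzz : z * (starRingEnd ℂ) z = 1 := by
    rw [Complex.mul_conj, Complex.normSq_eq_norm_sq, hz1]; simp
  have hz0 : z ≠ 0 := by
    intro h; rw [h] at hz1; simp at hz1
  set w : ℂ := (r : ℂ) * z with hw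
  have hwn : ‖w‖ < 1 := by
    rw [hw, norm_mul, Complex.norm_real, Real.norm_of_nonneg h0, hz1, mul_one]; exact h1
  have hwn' : ‖(starRingEnd ℂ) w‖ < 1 := by rwa [Complex.norm_conj]
  have hs1 := (hasSum_geometric_of_norm_lt_one hwn).mul_left w
  have hs2 := (hasSum_geometric_of_norm_lt_one hwn').mul_left ((starRingEnd ℂ) w)
  have hs := hs1.add hs2
  have hterm : ∀ j : ℕ, w * w ^ j + (starRingEnd ℂ) w * (starRingEnd ℂ) w ^ j =
      (r : ℂ) ^ (j + 1) * (fourier ((j : ℤ) + 1) t + fourier (-((j : ℤ) + 1)) t) := by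
    intro j
    have e1 : (fourier ((j : ℤ) + 1) t : ℂ) = z ^ (j + 1) := by
      rw [fourier_eq_zpow, ← hz]
      exact_mod_cast zpow_natCast z (j + 1)
    have e2 : (fourier (-((j : ℤ) + 1)) t : ℂ) = ((starRingEnd ℂ) z) ^ (j + 1) := by
      rw [fourier_neg, e1, map_pow]
    rw [e1, e2, hw, map_mul, Complex.conj_ofReal]
    ring
  have h1w : (1 : ℂ) - w ≠ 0 := by
    intro h
    have : w = 1 := by linear_combination -h
    rw [this] at hwn; simp at hwn
  have h1w' : (1 : ℂ) - (starRingEnd ℂ) w ≠ 0 := by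
    intro h
    have : (starRingEnd ℂ) w = 1 := by linear_combination -h
    rw [this] at hwn'; simp at hwn'
  have hval : w * (1 - w)⁻¹ + (starRingEnd ℂ) w * (1 - (starRingEnd ℂ) w)⁻¹ =
      (poisson r t : ℂ) - 1 := by
    have hden : ((‖1 - w‖ ^ 2 : ℝ) : ℂ) = (1 - w) * (1 - (starRingEnd ℂ) w) := by
      rw [← Complex.normSq_eq_norm_sq, ← Complex.mul_conj, map_sub, map_one]
    have hww : w * (starRingEnd ℂ) w = (r : ℂ) ^ 2 := by
      rw [hw, map_mul, Complex.conj_ofReal]
      linear_combination (r : ℂ) ^ 2 * hzz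
    unfold poisson
    rw [← hz, ← hw]
    push_cast
    have hden' : ((‖1 - w‖ : ℝ) : ℂ) ^ 2 = (1 - w) * (1 - (starRingEnd ℂ) w) := by
      rw [← hden]; push_cast; rfl
    rw [hden', ← hww]
    field_simp
    ring
  rw [← hval]
  simpa only [hterm] using hs

lemma poisson_nonneg {r : ℝ} (h0 : 0 ≤ r) (h1 : r ≤ 1) (t : UnitAddCircle) : 0 ≤ poisson r t := by
  unfold poisson
  apply div_nonneg _ (by positivity)
  nlinarith

lemma poisson_continuous {r : ℝ} (h0 : 0 ≤ r) (h1 : r < 1) : Continuous (poisson r) := by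
  unfold poisson
  apply Continuous.div
  · fun_prop
  · fun_prop
  · intro t h
    have h2 : (1 : ℂ) - r * fourier 1 t = 0 := by simpa using h
    have h3 : ‖(r : ℂ) * fourier 1 t‖ = 1 := by
      have : (r : ℂ) * fourier 1 t = 1 := by linear_combination -h2
      rw [this]; simp
    rw [norm_mul, norm_fourier_eq_one, mul_one, Complex.norm_real, Real.norm_of_nonneg h0] at h3
    linarith

/-- integrating a character against the Poisson kernel -/
lemma integral_poisson_mul_fourier {r : ℝ} (h0 : 0 ≤ r) (h1 : r < 1) (θ : UnitAddCircle) (d : ℕ) :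
    ∫ φ : UnitAddCircle, ((poisson r (θ - φ) : ℝ) : ℂ) * fourier (d : ℤ) φ ∂AddCircle.haarAddCircle =
      (r : ℂ) ^ d * fourier (d : ℤ) θ := by
  have hexp : ∀ φ : UnitAddCircle, ((poisson r (θ - φ) : ℝ) : ℂ) * fourier (d : ℤ) φ =
      fourier (d : ℤ) φ + ∑' j : ℕ, (r : ℂ) ^ (j + 1) *
        (fourier ((j : ℤ) + 1) θ * fourier ((d : ℤ) - ((j : ℤ) + 1)) φ +
          fourier (-((j : ℤ) + 1)) θ * fourier ((d : ℤ) + ((j : ℤ) + 1)) φ) := by
    intro φ
    have hs := (poisson_hasSum h0 h1 (θ - φ)).tsum_eq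
    have : ((poisson r (θ - φ) : ℝ) : ℂ) = 1 + ∑' j : ℕ, (r : ℂ) ^ (j + 1) *
        (fourier ((j : ℤ) + 1) (θ - φ) + fourier (-((j : ℤ) + 1)) (θ - φ)) := by
      rw [hs]; ring
    rw [this, add_mul, one_mul, ← tsum_mul_right]
    congr 1
    refine tsum_congr fun j => ?_
    have hsub : ∀ n : ℤ, (fourier n (θ - φ) : ℂ) = fourier n θ * fourier (-n) φ := by
      intro n
      rw [fourier_apply, fourier_apply, fourier_apply, smul_sub, sub_eq_add_neg,
        AddCircle.toCircle_add, neg_smul]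
      push_cast
      rfl
    have hA : (fourier ((d : ℤ) - ((j : ℤ) + 1)) φ : ℂ) =
        fourier (d : ℤ) φ * fourier (-((j : ℤ) + 1)) φ := by
      rw [sub_eq_add_neg]; exact fourier_add
    have hB : (fourier ((d : ℤ) + ((j : ℤ) + 1)) φ : ℂ) =
        fourier (d : ℤ) φ * fourier ((j : ℤ) + 1) φ := fourier_add
    rw [hsub, hsub, neg_neg, hA, hB]
    ring
  simp_rw [hexp]
  have hbound : ∀ (j : ℕ) (φ : UnitAddCircle), ‖(r : ℂ) ^ (j + 1) *
        (fourier ((j : ℤ) + 1) θ * fourier ((d : ℤ) - ((j : ℤ) + 1)) φ +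
          fourier (-((j : ℤ) + 1)) θ * fourier ((d : ℤ) + ((j : ℤ) + 1)) φ)‖ ≤ r ^ (j + 1) * 2 := by
    intro j φ
    rw [norm_mul, norm_pow, Complex.norm_real, Real.norm_of_nonneg h0]
    apply mul_le_mul_of_nonneg_left _ (by positivity)
    refine (norm_add_le _ _).trans ?_
    rw [norm_mul, norm_mul, norm_fourier_eq_one, norm_fourier_eq_one, norm_fourier_eq_one,
      norm_fourier_eq_one]
    norm_num
  have hsumm : Summable fun j : ℕ => r ^ (j + 1) * 2 := by
    have := (summable_geometric_of_lt_one h0 h1).mul_left (2 * r)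
    refine this.congr fun j => ?_
    rw [pow_succ]; ring
  have hint : ∀ j : ℕ, Integrable (fun φ : UnitAddCircle => (r : ℂ) ^ (j + 1) *
        (fourier ((j : ℤ) + 1) θ * fourier ((d : ℤ) - ((j : ℤ) + 1)) φ +
          fourier (-((j : ℤ) + 1)) θ * fourier ((d : ℤ) + ((j : ℤ) + 1)) φ))
        AddCircle.haarAddCircle := by
    intro j
    apply Continuous.integrable_of_hasCompactSupport
    · fun_prop
    · exact HasCompactSupport.of_compactSpace _
  have hcont : Continuous fun φ : UnitAddCircle => ∑' j : ℕ, (r : ℂ) ^ (j + 1) *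
        (fourier ((j : ℤ) + 1) θ * fourier ((d : ℤ) - ((j : ℤ) + 1)) φ +
          fourier (-((j : ℤ) + 1)) θ * fourier ((d : ℤ) + ((j : ℤ) + 1)) φ) :=
    continuous_tsum (by fun_prop) hsumm hbound
  rw [integral_add]
  · rw [← integral_tsum_of_summable_integral_norm hint]
    · have hj : ∀ j : ℕ, ∫ φ : UnitAddCircle, (r : ℂ) ^ (j + 1) *
        (fourier ((j : ℤ) + 1) θ * fourier ((d : ℤ) - ((j : ℤ) + 1)) φ +
          fourier (-((j : ℤ) + 1)) θ * fourier ((d : ℤ) + ((j : ℤ) + 1)) φ)
          ∂AddCircle.haarAddCircle =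
          if d = j + 1 then (r : ℂ) ^ (j + 1) * fourier ((j : ℤ) + 1) θ else 0 := by
        intro j
        rw [integral_const_mul, integral_add, integral_const_mul, integral_const_mul,
          integral_fourier, integral_fourier, if_neg (by omega : ¬ ((d : ℤ) + ((j : ℤ) + 1) = 0))]
        · split_ifs with h2 h3
          · ring
          · omega
          · omega
          · ring
        · apply Continuous.integrable_of_hasCompactSupport
          · fun_prop
          · exact HasCompactSupport.of_compactSpace _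
        · apply Continuous.integrable_of_hasCompactSupport
          · fun_prop
          · exact HasCompactSupport.of_compactSpace _
      simp_rw [hj, integral_fourier]
      rcases d with _ | d
      · simp
      · rw [tsum_eq_single d]
        · rw [if_neg (by positivity), if_pos rfl]
          push_cast
          ring
        · intro j hj'
          rw [if_neg (by omega)]
    · refine Summable.of_nonneg_of_le (fun j => integral_nonneg fun φ => norm_nonneg _)
        (fun j => ?_) hsumm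
      calc ∫ φ : UnitAddCircle, ‖(r : ℂ) ^ (j + 1) *
        (fourier ((j : ℤ) + 1) θ * fourier ((d : ℤ) - ((j : ℤ) + 1)) φ +
          fourier (-((j : ℤ) + 1)) θ * fourier ((d : ℤ) + ((j : ℤ) + 1)) φ)‖
          ∂AddCircle.haarAddCircle ≤ ∫ _φ : UnitAddCircle, r ^ (j + 1) * 2
          ∂AddCircle.haarAddCircle := by
            apply integral_mono (hint j).norm (integrable_const _)
            intro φ
            exact hbound j φ
        _ = r ^ (j + 1) * 2 := by simp
  · apply Continuous.integrable_of_hasCompactSupport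
    · fun_prop
    · exact HasCompactSupport.of_compactSpace _
  · exact hcont.integrable_of_hasCompactSupport (HasCompactSupport.of_compactSpace _)

/-- the Poisson integral of a power series -/
lemma integral_poisson_mul_V (a : ℕ → ℂ) (ha : Summable fun d => ‖a d‖) {r : ℝ} (h0 : 0 ≤ r)
    (h1 : r < 1) (θ : UnitAddCircle) :
    ∫ φ : UnitAddCircle, ((poisson r (θ - φ) : ℝ) : ℂ) * V a 1 φ ∂AddCircle.haarAddCircle = V a r θ := by
  have hPc : Continuous fun φ : UnitAddCircle => poisson r (θ - φ) :=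
    (poisson_continuous h0 h1).comp (by fun_prop)
  obtain ⟨C, hC⟩ : ∃ C, ∀ φ : UnitAddCircle, ‖((poisson r (θ - φ) : ℝ) : ℂ)‖ ≤ C := by
    obtain ⟨x, -, hx⟩ := isCompact_univ.exists_isMaxOn (Set.univ_nonempty (α := UnitAddCircle))
      (hPc.norm.continuousOn)
    refine ⟨‖poisson r (θ - x)‖, fun φ => ?_⟩
    rw [Complex.norm_real]
    exact hx (Set.mem_univ φ)
  have h2 : ∀ φ : UnitAddCircle, ((poisson r (θ - φ) : ℝ) : ℂ) * V a 1 φ =
      ∑' d : ℕ, a d * (((poisson r (θ - φ) : ℝ) : ℂ) * fourier (d : ℤ) φ) := by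
    intro φ
    unfold V
    rw [← tsum_mul_left]
    refine tsum_congr fun d => ?_
    push_cast
    ring
  simp_rw [h2]
  have hint : ∀ d : ℕ, Integrable (fun φ : UnitAddCircle =>
      a d * (((poisson r (θ - φ) : ℝ) : ℂ) * fourier (d : ℤ) φ)) AddCircle.haarAddCircle := by
    intro d
    apply Continuous.integrable_of_hasCompactSupport
    · have : Continuous fun φ : UnitAddCircle => ((poisson r (θ - φ) : ℝ) : ℂ) :=
        Complex.continuous_ofReal.comp hPc
      fun_prop
    · exact HasCompactSupport.of_compactSpace _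
  rw [← integral_tsum_of_summable_integral_norm hint]
  · unfold V
    refine tsum_congr fun d => ?_
    rw [integral_const_mul, integral_poisson_mul_fourier h0 h1]
    ring
  · refine Summable.of_nonneg_of_le (fun j => integral_nonneg fun φ => norm_nonneg _)
        (fun d => ?_) (ha.mul_right C)
    calc ∫ φ : UnitAddCircle, ‖a d * (((poisson r (θ - φ) : ℝ) : ℂ) * fourier (d : ℤ) φ)‖
          ∂AddCircle.haarAddCircle ≤ ∫ _φ : UnitAddCircle, ‖a d‖ * C
          ∂AddCircle.haarAddCircle := by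
            apply integral_mono (hint d).norm (integrable_const _)
            intro φ
            simp only [norm_mul, norm_fourier_eq_one, mul_one]
            exact mul_le_mul_of_nonneg_left (hC φ) (norm_nonneg _)
        _ = ‖a d‖ * C := by simp

end Q210.HT
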