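import Pool.Agent.Q210.HT.Rad

open MeasureTheory Filter Topology Finset

namespace Q210.HT

lemma norm_one_sub_fourier_le (t : UnitAddCircle) :
    ‖(1 : ℂ) - fourier 1 t‖ ≤ 2 * Real.pi * ‖t‖ := by
  induction t using QuotientAddGroup.induction_on with
  | H x =>
    have h1 : ((x : ℝ) : UnitAddCircle) = ((x - round x : ℝ) : UnitAddCircle) := by
      rw [AddCircle.coe_sub]
      have : ((round x : ℝ) : UnitAddCircle) = 0 := by
        rw [AddCircle.coe_eq_zero_iff]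
        exact ⟨round x, by simp⟩
      rw [this, sub_zero]
    have h2 : ‖((x : ℝ) : UnitAddCircle)‖ = |x - round x| := UnitAddCircle.norm_eq
    have h3 : (fourier 1 ((x : ℝ) : UnitAddCircle) : ℂ) =
        Complex.exp (Complex.I * ((2 * Real.pi * (x - round x) : ℝ) : ℂ)) := by
      rw [h1, fourier_coe_apply]
      congr 1
      push_cast
      ring
    change ‖(1 : ℂ) - fourier 1 ((x : ℝ) : UnitAddCircle)‖ ≤ 2 * Real.pi * ‖((x : ℝ) : UnitAddCircle)‖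
    rw [h3, norm_sub_rev, h2]
    refine (Real.norm_exp_I_mul_ofReal_sub_one_le).trans ?_
    rw [Real.norm_eq_abs, abs_mul, abs_of_pos (by positivity)]

/-- the elementary factor -/
noncomputable def E (c : ℝ) (w : ℂ) : ℂ := 1 - c * ((1 + w) / (1 - w))

lemma E_norm_sq_le {c : ℝ} (w : ℂ) (hc : 0 < c) (h : c * (1 + ‖w‖) ≤ 1 - ‖w‖) (hw : ‖w‖ < 1) :
    ‖E c w‖ ^ 2 ≤ 1 - c * (1 - ‖w‖ ^ 2) / ‖1 - w‖ ^ 2 := by
  have h1w : (1 : ℂ) - w ≠ 0 := by
    intro h'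
    have : w = 1 := by linear_combination -h'
    rw [this] at hw; simp at hw
  have hA : 0 < ‖1 - w‖ ^ 2 := by positivity
  have e1 : E c w = ((1 - w) - c * (1 + w)) / (1 - w) := by
    unfold E; field_simp
  have e2 : ‖(1 - w) - c * (1 + w)‖ ^ 2 =
      ‖1 - w‖ ^ 2 - 2 * c * (1 - ‖w‖ ^ 2) + c ^ 2 * ‖1 + w‖ ^ 2 := by
    rw [← Complex.normSq_eq_norm_sq, ← Complex.normSq_eq_norm_sq, ← Complex.normSq_eq_norm_sq,
      ← Complex.normSq_eq_norm_sq, Complex.normSq_apply, Complex.normSq_apply,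
      Complex.normSq_apply, Complex.normSq_apply]
    simp
    ring
  have h3 : ‖1 + w‖ ≤ 1 + ‖w‖ := (norm_add_le _ _).trans (by rw [norm_one])
  have h4 : c ^ 2 * ‖1 + w‖ ^ 2 ≤ c * (1 - ‖w‖ ^ 2) := by
    have h5 : ‖1 + w‖ ^ 2 ≤ (1 + ‖w‖) ^ 2 := by gcongr
    have h6 : c * (c * (1 + ‖w‖)) * (1 + ‖w‖) ≤ c * (1 - ‖w‖) * (1 + ‖w‖) := by
      have := norm_nonneg w
      gcongr
    nlinarith [sq_nonneg c]
  rw [e1, norm_div, div_pow, e2, div_le_iff₀ hA]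
  have h7 : (1 - c * (1 - ‖w‖ ^ 2) / ‖1 - w‖ ^ 2) * ‖1 - w‖ ^ 2 =
      ‖1 - w‖ ^ 2 - c * (1 - ‖w‖ ^ 2) := by
    field_simp
  rw [h7]
  linarith

lemma E_ne_zero {c : ℝ} (w : ℂ) (hc : 0 < c) (h : c * (1 + ‖w‖) < 1 - ‖w‖) : E c w ≠ 0 := by
  have hn := norm_nonneg w
  have hw : ‖w‖ < 1 := by nlinarith
  have h1w : (1 : ℂ) - w ≠ 0 := by
    intro h'
    have : w = 1 := by linear_combination -h'
    rw [this] at hw; simp at hw
  have e1 : E c w = ((1 - w) - c * (1 + w)) / (1 - w) := by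
    unfold E; field_simp
  rw [e1]
  apply div_ne_zero _ h1w
  intro h2
  have h3 : (1 : ℂ) - w = c * (1 + w) := by linear_combination h2
  have h4 : ‖(1 : ℂ) - w‖ = c * ‖1 + w‖ := by
    rw [h3, norm_mul, Complex.norm_real, Real.norm_of_nonneg hc.le]
  have h5 : 1 - ‖w‖ ≤ ‖(1 : ℂ) - w‖ := by
    have := norm_sub_norm_le (1 : ℂ) w
    rwa [norm_one] at this
  have h6 : ‖1 + w‖ ≤ 1 + ‖w‖ := (norm_add_le _ _).trans (by rw [norm_one])
  nlinarith

/-- coefficients of `z ↦ E c (s z^k)` -/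
noncomputable def coef (c s : ℝ) (k : ℕ) (d : ℕ) : ℂ :=
  if k ∣ d then (if d = 0 then ((1 - c : ℝ) : ℂ) else ((-2 * c * s ^ (d / k) : ℝ) : ℂ)) else 0

lemma coef_hasSum {c s : ℝ} {k : ℕ} (hk : 0 < k) (z : ℂ) (hz : ‖(s : ℂ) * z ^ k‖ < 1) :
    HasSum (fun d => coef c s k d * z ^ d) (E c (s * z ^ k)) := by
  have hinj : Function.Injective fun j : ℕ => k * j := fun i j h => by
    simpa [hk.ne'] using h
  rw [← hinj.hasSum_iff]
  · have hg := (hasSum_geometric_of_norm_lt_one hz).mul_left (-2 * (c : ℂ))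
    have hadd := hg.add (hasSum_ite_eq (0 : ℕ) ((1 + c : ℂ)))
    have h1w : (1 : ℂ) - s * z ^ k ≠ 0 := by
      intro h'
      have : (s : ℂ) * z ^ k = 1 := by linear_combination -h'
      rw [this] at hz; simp at hz
    have e1 : ((fun d => coef c s k d * z ^ d) ∘ fun j => k * j) = fun b =>
        -2 * (c : ℂ) * (↑s * z ^ k) ^ b + if b = 0 then (1 + c : ℂ) else 0 := by
      funext j
      simp only [Function.comp, coef]
      rw [if_pos (Dvd.intro j rfl)]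
      rcases Nat.eq_zero_or_pos j with rfl | hj
      · simp
        ring
      · rw [if_neg (by positivity), if_neg hj.ne', Nat.mul_div_cancel_left j hk, mul_pow, ← pow_mul]
        push_cast
        ring
    have e2 : E c (s * z ^ k) = -2 * (c : ℂ) * (1 - ↑s * z ^ k)⁻¹ + (1 + c : ℂ) := by
      unfold E
      field_simp
      ring
    rw [e1, e2]
    exact hadd
  · intro d hd
    have : ¬ k ∣ d := fun ⟨j, hj⟩ => hd ⟨j, hj.symm⟩
    simp [coef, this]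

lemma coef_summable {c s : ℝ} {k : ℕ} (hk : 0 < k) (hs0 : 0 ≤ s) (hs1 : s < 1) :
    Summable fun d => ‖coef c s k d‖ := by
  have hinj : Function.Injective fun j : ℕ => k * j := fun i j h => by
    simpa [hk.ne'] using h
  rw [← hinj.summable_iff]
  · refine Summable.of_nonneg_of_le (fun j => norm_nonneg _) (fun j => ?_)
      (((summable_geometric_of_lt_one hs0 hs1).mul_left (2 * |c|)).add
      (hasSum_ite_eq (0 : ℕ) (|1 - c|)).summable)
    simp only [Function.comp, coef]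
    rw [if_pos (Dvd.intro j rfl)]
    rcases Nat.eq_zero_or_pos j with rfl | hj
    · simp only [mul_zero, if_true, pow_zero, mul_one, Complex.norm_real, Real.norm_eq_abs]
      have := abs_nonneg c
      linarith
    · rw [if_neg (by positivity), if_neg hj.ne', Nat.mul_div_cancel_left j hk, Complex.norm_real,
        Real.norm_eq_abs, abs_mul, abs_mul, abs_of_nonneg (pow_nonneg hs0 j), add_zero]
      norm_num
  · intro d hd
    have : ¬ k ∣ d := fun ⟨j, hj⟩ => hd ⟨j, hj.symm⟩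
    simp [coef, this]

lemma V_coef {c s : ℝ} {k : ℕ} (hk : 0 < k) (hs0 : 0 ≤ s) (hs1 : s < 1) {r : ℝ} (h0 : 0 ≤ r)
    (h1 : r ≤ 1) (t : UnitAddCircle) :
    V (coef c s k) r t = E c (s * ((r : ℂ) * fourier 1 t) ^ k) := by
  have hn : ‖(s : ℂ) * ((r : ℂ) * fourier 1 t) ^ k‖ < 1 := by
    rw [norm_mul, norm_pow, norm_mul, norm_fourier_eq_one, mul_one, Complex.norm_real,
      Complex.norm_real, Real.norm_of_nonneg hs0, Real.norm_of_nonneg h0]
    calc s * r ^ k ≤ s * 1 := by gcongr; exact pow_le_one₀ h0 h1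
      _ < 1 := by linarith
  rw [← (coef_hasSum hk _ hn).tsum_eq]
  unfold V
  refine tsum_congr fun d => ?_
  have : (fourier (d : ℤ) t : ℂ) = (fourier 1 t : ℂ) ^ d := by
    rw [fourier_eq_zpow]; exact zpow_natCast _ d
  rw [this]
  ring

lemma norm_arg {s : ℝ} {k : ℕ} (hs0 : 0 ≤ s) {r : ℝ} (h0 : 0 ≤ r) (t : UnitAddCircle) :
    ‖(s : ℂ) * ((r : ℂ) * fourier 1 t) ^ k‖ = s * r ^ k := by
  rw [norm_mul, norm_pow, norm_mul, norm_fourier_eq_one, mul_one, Complex.norm_real,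
      Complex.norm_real, Real.norm_of_nonneg hs0, Real.norm_of_nonneg h0]

lemma fourier_one_pow (k : ℕ) (t : UnitAddCircle) :
    (fourier 1 t : ℂ) ^ k = fourier 1 (k • t) := by
  rw [fourier_one, fourier_one, AddCircle.toCircle_nsmul, Circle.coe_pow]

/-- parameters: `s = 1 - 2^{-q}`, `c = 2^{-q-2}` -/
noncomputable def ss (q : ℕ) : ℝ := 1 - (1 / 2) ^ q
noncomputable def cc (q : ℕ) : ℝ := (1 / 2) ^ q / 4

lemma ss_nonneg (q : ℕ) : 0 ≤ ss q := by
  unfold ss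
  have : (1 / 2 : ℝ) ^ q ≤ 1 := pow_le_one₀ (by norm_num) (by norm_num)
  linarith

lemma ss_lt_one (q : ℕ) : ss q < 1 := by
  unfold ss
  have : (0 : ℝ) < (1 / 2 : ℝ) ^ q := by positivity
  linarith

lemma cc_pos (q : ℕ) : 0 < cc q := by unfold cc; positivity

lemma cc_lt {q : ℕ} {x : ℝ} (_hx0 : 0 ≤ x) (hx : x ≤ ss q) : cc q * (1 + x) < 1 - x := by
  have hp : (0 : ℝ) < (1 / 2 : ℝ) ^ q := by positivity
  have hp1 : (1 / 2 : ℝ) ^ q ≤ 1 := pow_le_one₀ (by norm_num) (by norm_num)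
  unfold ss at hx
  unfold cc
  nlinarith

lemma V_norm_le_one (q : ℕ) {k : ℕ} (hk : 0 < k) {r : ℝ} (h0 : 0 ≤ r) (h1 : r ≤ 1)
    (t : UnitAddCircle) : ‖V (coef (cc q) (ss q) k) r t‖ ≤ 1 := by
  rw [V_coef hk (ss_nonneg q) (ss_lt_one q) h0 h1]
  set w : ℂ := (ss q : ℂ) * ((r : ℂ) * fourier 1 t) ^ k with hw
  have hwn : ‖w‖ = ss q * r ^ k := norm_arg (ss_nonneg q) h0 t
  have hle : ‖w‖ ≤ ss q := by
    rw [hwn]
    exact mul_le_of_le_one_right (ss_nonneg q) (pow_le_one₀ h0 h1)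
  have hlt : ‖w‖ < 1 := hle.trans_lt (ss_lt_one q)
  have h2 := E_norm_sq_le w (cc_pos q) (cc_lt (norm_nonneg w) hle).le hlt
  have h3 : 0 ≤ cc q * (1 - ‖w‖ ^ 2) / ‖1 - w‖ ^ 2 := by
    apply div_nonneg (mul_nonneg (cc_pos q).le _) (by positivity)
    nlinarith [norm_nonneg w]
  have h4 : ‖E (cc q) w‖ ^ 2 ≤ 1 := by linarith
  nlinarith [norm_nonneg (E (cc q) w)]

lemma V_ne_zero (q : ℕ) {k : ℕ} (hk : 0 < k) (t : UnitAddCircle) :
    V (coef (cc q) (ss q) k) 1 t ≠ 0 := by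
  rw [V_coef hk (ss_nonneg q) (ss_lt_one q) (by norm_num) le_rfl]
  apply E_ne_zero _ (cc_pos q)
  apply cc_lt (norm_nonneg _)
  rw [norm_arg (ss_nonneg q) (by norm_num)]
  simp

/-- the gain from the `j`-th radius when `k • t` is at distance about `2^{-j}` from `0` -/
lemma gain {q : ℕ} {k : ℕ} (hk : 0 < k) {j : ℕ} (hj : j ≤ q) {r : ℝ} (h0 : 0 ≤ r) (h1 : r ≤ 1)
    (hr : r ^ k = 1 - (1 / 2) ^ j) {t : UnitAddCircle} (ht : ‖k • t‖ ≤ (1 / 2) ^ (j + 2)) :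
    ‖V (coef (cc q) (ss q) k) r t‖ ≤ Real.exp (-(2 ^ j * (1 / 2) ^ q / 64) / 2) := by
  rw [V_coef hk (ss_nonneg q) (ss_lt_one q) h0 h1]
  set w : ℂ := (ss q : ℂ) * ((r : ℂ) * fourier 1 t) ^ k with hw
  have hwn : ‖w‖ = ss q * r ^ k := norm_arg (ss_nonneg q) h0 t
  clear_value w
  have hle : ‖w‖ ≤ ss q := by
    rw [hwn]
    exact mul_le_of_le_one_right (ss_nonneg q) (pow_le_one₀ h0 h1)
  have hlt : ‖w‖ < 1 := hle.trans_lt (ss_lt_one q)
  have h2 := E_norm_sq_le w (cc_pos q) (cc_lt (norm_nonneg w) hle).le hlt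
  set u : ℝ := (1 / 2) ^ j with hu
  have hu0 : 0 < u := by positivity
  have hu1 : u ≤ 1 := pow_le_one₀ (by norm_num) (by norm_num)
  have hqu : (1 / 2 : ℝ) ^ q ≤ u := pow_le_pow_of_le_one (by norm_num) (by norm_num) hj
  have hq0 : (0 : ℝ) < (1 / 2 : ℝ) ^ q := by positivity
  have hup : ‖w‖ ≤ 1 - u := by
    rw [hwn, hr]
    have := ss_lt_one q
    have : ss q * (1 - u) ≤ 1 * (1 - u) := by
      apply mul_le_mul_of_nonneg_right (ss_lt_one q).le (by linarith)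
    linarith
  have hlow : 1 - 2 * u ≤ ‖w‖ := by
    rw [hwn, hr]
    unfold ss
    nlinarith
  have hdist : ‖1 - w‖ ≤ 4 * u := by
    have e : w = (‖w‖ : ℂ) * fourier 1 (k • t) := by
      rw [hwn, hw, mul_pow, fourier_one_pow]
      push_cast
      ring
    have e2 : 1 - w = (1 - (‖w‖ : ℂ)) + (‖w‖ : ℂ) * (1 - fourier 1 (k • t)) := by
      rw [mul_sub, mul_one, ← e]; ring
    have h5 : ‖(1 : ℂ) - fourier 1 (k • t)‖ ≤ 2 * u := by
      refine (norm_one_sub_fourier_le _).trans ?_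
      have h6 : (1 / 2 : ℝ) ^ (j + 2) = u / 4 := by rw [pow_add, ← hu]; ring
      rw [h6] at ht
      have h7 := Real.pi_le_four
      have h8 := Real.pi_pos
      have h9 := norm_nonneg (k • t)
      nlinarith
    calc ‖1 - w‖ = ‖(1 - (‖w‖ : ℂ)) + (‖w‖ : ℂ) * (1 - fourier 1 (k • t))‖ := by rw [← e2]
      _ ≤ ‖(1 - (‖w‖ : ℂ))‖ + ‖(‖w‖ : ℂ) * (1 - fourier 1 (k • t))‖ := norm_add_le _ _
      _ = (1 - ‖w‖) + ‖w‖ * ‖(1 : ℂ) - fourier 1 (k • t)‖ := by
        rw [norm_mul, Complex.norm_real, norm_norm]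
        congr 1
        have : (1 - (‖w‖ : ℂ)) = ((1 - ‖w‖ : ℝ) : ℂ) := by push_cast; rfl
        rw [this, Complex.norm_real, Real.norm_of_nonneg (by linarith)]
      _ ≤ 2 * u + 1 * (2 * u) := by
        have := norm_nonneg w
        have := norm_nonneg ((1 : ℂ) - fourier 1 (k • t))
        gcongr
        linarith
      _ = 4 * u := by ring
  have h1w : 0 < ‖1 - w‖ := by
    rw [norm_pos_iff]
    intro h'
    have : w = 1 := by linear_combination -h'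
    rw [this] at hlt; simp at hlt
  have h2j : (2 : ℝ) ^ j = 1 / u := by
    rw [hu, ← one_div_pow]; norm_num
  have hmain : 2 ^ j * (1 / 2) ^ q / 64 ≤ cc q * (1 - ‖w‖ ^ 2) / ‖1 - w‖ ^ 2 := by
    rw [le_div_iff₀ (by positivity), h2j]
    unfold cc
    have h10 : ‖1 - w‖ ^ 2 ≤ 16 * u ^ 2 := by
      have := pow_le_pow_left₀ h1w.le hdist 2
      linarith
    have h11 : u ≤ 1 - ‖w‖ ^ 2 := by nlinarith [norm_nonneg w]
    calc 1 / u * (1 / 2) ^ q / 64 * ‖1 - w‖ ^ 2 ≤ 1 / u * (1 / 2) ^ q / 64 * (16 * u ^ 2) := by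
          gcongr
      _ = (1 / 2) ^ q / 4 * u := by field_simp; ring
      _ ≤ (1 / 2) ^ q / 4 * (1 - ‖w‖ ^ 2) := by gcongr
  set y : ℝ := 2 ^ j * (1 / 2) ^ q / 64 with hy
  have h12 : ‖E (cc q) w‖ ^ 2 ≤ Real.exp (-y / 2) ^ 2 := by
    have : Real.exp (-y / 2) ^ 2 = Real.exp (-y) := by
      rw [← Real.exp_nat_mul]; congr 1; push_cast; ring
    rw [this]
    have := Real.add_one_le_exp (-y)
    linarith
  exact (sq_le_sq₀ (norm_nonneg _) (Real.exp_pos _).le).mp h12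

end Q210.HT
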