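import Pool.Agent.Q210.HT.Base

open MeasureTheory Filter Topology Finset

namespace Q210.HT

lemma one_sub_sum_le_prod (s : Finset ℕ) (x : ℕ → ℝ) (h0 : ∀ n, 0 ≤ x n) (h1 : ∀ n, x n ≤ 1) :
    1 - ∑ n ∈ s, (1 - x n) ≤ ∏ n ∈ s, x n := by
  classical
  induction s using Finset.induction_on with
  | empty => simp
  | insert a s ha ih =>
    rw [sum_insert ha, prod_insert ha]
    have hp0 : 0 ≤ ∏ n ∈ s, x n := prod_nonneg fun n _ => h0 n
    have hp1 : ∏ n ∈ s, x n ≤ 1 := prod_le_one (fun n _ => h0 n) (fun n _ => h1 n)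
    nlinarith [h0 a, h1 a]

lemma norm_prod_sub_prod_le (s : Finset ℕ) (x y : ℕ → ℂ) (hx : ∀ n, ‖x n‖ ≤ 1)
    (hy : ∀ n, ‖y n‖ ≤ 1) : ‖∏ n ∈ s, x n - ∏ n ∈ s, y n‖ ≤ ∑ n ∈ s, ‖x n - y n‖ := by
  classical
  induction s using Finset.induction_on with
  | empty => simp
  | insert a s ha ih =>
    rw [sum_insert ha, prod_insert ha, prod_insert ha]
    have e : x a * ∏ n ∈ s, x n - y a * ∏ n ∈ s, y n =
        (x a - y a) * ∏ n ∈ s, x n + y a * (∏ n ∈ s, x n - ∏ n ∈ s, y n) := by ring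
    rw [e]
    refine (norm_add_le _ _).trans ?_
    rw [norm_mul, norm_mul]
    have hp1 : ‖∏ n ∈ s, x n‖ ≤ 1 := by
      rw [norm_prod]
      exact prod_le_one (fun n _ => norm_nonneg _) (fun n _ => hx n)
    have := norm_nonneg (x a - y a)
    have := norm_nonneg (∏ n ∈ s, x n - ∏ n ∈ s, y n)
    nlinarith [hy a]

lemma prod_converges (u : ℕ → ℂ) (h1 : ∀ J, ‖u J‖ ≤ 1) (h0 : ∀ J, u J ≠ 0)
    (hs : Summable fun J => ‖u J - 1‖) :
    ∃ l : ℂ, l ≠ 0 ∧ Tendsto (fun N => ∏ J ∈ range N, u J) atTop (𝓝 l) := by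
  have hcau : CauchySeq fun N => ∏ J ∈ range N, u J := by
    apply cauchySeq_of_summable_dist
    refine Summable.of_nonneg_of_le (fun _ => dist_nonneg) (fun N => ?_) hs
    rw [dist_comm, dist_eq_norm, prod_range_succ]
    have e : (∏ J ∈ range N, u J) * u N - ∏ J ∈ range N, u J =
      (∏ J ∈ range N, u J) * (u N - 1) := by ring
    rw [e, norm_mul]
    apply mul_le_of_le_one_left (norm_nonneg _)
    rw [norm_prod]
    exact prod_le_one (fun n _ => norm_nonneg _) (fun n _ => h1 n)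
  obtain ⟨l, hl⟩ := cauchySeq_tendsto_of_complete hcau
  refine ⟨l, ?_, hl⟩
  -- lower bound
  have htail := tendsto_sum_nat_add (fun J => ‖u J - 1‖)
  obtain ⟨N0, hN0⟩ := ((htail.eventually_lt_const (by norm_num : (0 : ℝ) < 1 / 2))).exists
  have hlow : ∀ N, ‖∏ J ∈ range (N0 + N), u J‖ ≥ ‖∏ J ∈ range N0, u J‖ * (1 / 2) := by
    intro N
    rw [prod_range_add, norm_mul]
    apply mul_le_mul_of_nonneg_left _ (norm_nonneg _)
    have h2 := norm_prod_sub_prod_le (range N) (fun J => u (N0 + J)) (fun _ => 1)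
      (fun J => h1 _) (fun _ => by simp)
    simp only [prod_const_one] at h2
    have h3 : ∑ n ∈ range N, ‖u (N0 + n) - 1‖ ≤ ∑' k, ‖u (k + N0) - 1‖ := by
      have hs' : Summable fun k => ‖u (k + N0) - 1‖ := (summable_nat_add_iff (f := fun J =>
        ‖u J - 1‖) N0).mpr hs
      have := hs'.sum_le_tsum (range N) (fun i _ => norm_nonneg _)
      refine le_trans (le_of_eq ?_) this
      refine sum_congr rfl fun i _ => ?_
      rw [add_comm]
    have h4 : ‖(1 : ℂ)‖ - ‖∏ J ∈ range N, u (N0 + J) - 1‖ ≤ ‖∏ J ∈ range N, u (N0 + J)‖ := by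
      have := norm_sub_norm_le (1 : ℂ) (1 - ∏ J ∈ range N, u (N0 + J))
      rw [norm_sub_rev, sub_sub_cancel] at this
      exact this
    rw [norm_one] at h4
    linarith
  have hpos : 0 < ‖∏ J ∈ range N0, u J‖ := by
    rw [norm_pos_iff, prod_ne_zero_iff]
    exact fun J _ => h0 J
  intro hl0
  rw [hl0] at hl
  have h5 : Tendsto (fun N => ‖∏ J ∈ range (N0 + N), u J‖) atTop (𝓝 0) := by
    have := (tendsto_add_atTop_iff_nat N0).mpr hl
    have h6 := this.norm
    rw [norm_zero] at h6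
    refine h6.congr fun N => ?_
    rw [add_comm]
  have := ge_of_tendsto' h5 hlow
  linarith

section data

variable {a : ℕ → ℕ → ℂ} {x : ℕ → ℝ}

/-- partial products -/
noncomputable def F (a : ℕ → ℕ → ℂ) (N : ℕ) (θ : TInf) : ℂ := ∏ n ∈ range N, V (a n) 1 (θ n)

lemma coord_continuous (hsum : ∀ n, Summable fun d => ‖a n d‖) {r : ℝ} (h0 : 0 ≤ r) (h1 : r ≤ 1)
    (n : ℕ) : Continuous fun θ : TInf => V (a n) r (θ n) :=
  (V_continuous (a n) (hsum n) h0 h1).comp (continuous_apply n)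

lemma F_continuous (hsum : ∀ n, Summable fun d => ‖a n d‖) (N : ℕ) : Continuous (F a N) := by
  unfold F
  apply continuous_finsetProd
  intro n _
  exact coord_continuous hsum (by norm_num) le_rfl n

lemma F_norm_le (hle : ∀ n, ∀ r : ℝ, 0 ≤ r → r ≤ 1 → ∀ t, ‖V (a n) r t‖ ≤ 1) (N : ℕ) (θ : TInf) :
    ‖F a N θ‖ ≤ 1 := by
  unfold F
  rw [norm_prod]
  exact prod_le_one (fun n _ => norm_nonneg _) (fun n _ => hle n 1 (by norm_num) le_rfl _)

lemma integral_V (hsum : ∀ n, Summable fun d => ‖a n d‖) (n : ℕ) :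
    ∫ t, V (a n) 1 t ∂AddCircle.haarAddCircle = a n 0 := by
  have := integral_fourier_mul_V (a n) (hsum n) 0
  simpa using this

lemma block_l2 (hsum : ∀ n, Summable fun d => ‖a n d‖)
    (hle : ∀ n, ∀ r : ℝ, 0 ≤ r → r ≤ 1 → ∀ t, ‖V (a n) r t‖ ≤ 1)
    (hx : ∀ n, a n 0 = x n) (hx0 : ∀ n, 0 ≤ x n) (hx1 : ∀ n, x n ≤ 1) (s : Finset ℕ) :
    ∫ θ, ‖∏ n ∈ s, V (a n) 1 (θ n) - 1‖ ^ 2 ∂m ≤ 2 * ∑ n ∈ s, (1 - x n) := by
  set U : TInf → ℂ := fun θ => ∏ n ∈ s, V (a n) 1 (θ n) with hU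
  have hUc : Continuous U :=
    continuous_finsetProd _ fun n _ => coord_continuous hsum (by norm_num) le_rfl n
  have hU1 : ∀ θ, ‖U θ‖ ≤ 1 := by
    intro θ
    rw [hU]
    simp only
    rw [norm_prod]
    exact prod_le_one (fun n _ => norm_nonneg _) (fun n _ => hle n 1 (by norm_num) le_rfl _)
  have hUi : Integrable U m :=
    (memLp_top_of_bound hUc.aestronglyMeasurable 1 (ae_of_all _ hU1)).integrable le_top
  have hint : ∫ θ, U θ ∂m = ((∏ n ∈ s, x n : ℝ) : ℂ) := by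
    have := integral_prod_coord s (fun n => V (a n) 1)
      (fun n => V_continuous (a n) (hsum n) (by norm_num) le_rfl)
    rw [hU]
    rw [this]
    push_cast
    refine prod_congr rfl fun n _ => ?_
    rw [integral_V hsum, hx]
  have hb : ∀ θ, ‖U θ - 1‖ ^ 2 ≤ 2 - 2 * (U θ).re := by
    intro θ
    have h1 := hU1 θ
    have h2 : ‖U θ - 1‖ ^ 2 = ‖U θ‖ ^ 2 - 2 * (U θ).re + 1 := by
      rw [← Complex.normSq_eq_norm_sq, ← Complex.normSq_eq_norm_sq, Complex.normSq_apply,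
        Complex.normSq_apply]
      simp
      ring
    rw [h2]
    nlinarith [norm_nonneg (U θ)]
  have hre : ∫ θ, (U θ).re ∂m = ∏ n ∈ s, x n := by
    have := integral_re (𝕜 := ℂ) hUi
    simp only [RCLike.re_to_complex] at this
    rw [this, hint, Complex.ofReal_re]
  calc ∫ θ, ‖U θ - 1‖ ^ 2 ∂m ≤ ∫ θ, (2 - 2 * (U θ).re) ∂m := by
        apply integral_mono_of_nonneg
        · exact ae_of_all _ fun θ => by positivity
        · exact (integrable_const _).sub (hUi.re.const_mul 2)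
        · exact ae_of_all _ hb
    _ = 2 - 2 * ∏ n ∈ s, x n := by
        have hrei : Integrable (fun θ => 2 * (U θ).re) m := hUi.re.const_mul 2
        rw [integral_sub (integrable_const _) hrei, integral_const_mul, hre]
        simp
    _ ≤ 2 * ∑ n ∈ s, (1 - x n) := by
        have := one_sub_sum_le_prod s x hx0 hx1
        linarith

/-- almost everywhere convergence of the block products -/
lemma ae_converges (hsum : ∀ n, Summable fun d => ‖a n d‖)
    (hle : ∀ n, ∀ r : ℝ, 0 ≤ r → r ≤ 1 → ∀ t, ‖V (a n) r t‖ ≤ 1)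
    (hne : ∀ n t, V (a n) 1 t ≠ 0)
    (hx : ∀ n, a n 0 = x n) (hx0 : ∀ n, 0 ≤ x n) (hx1 : ∀ n, x n ≤ 1)
    {off : ℕ → ℕ} (hoff0 : off 0 = 0) (hoff : Monotone off)
    (hblock : ∀ J, ∑ n ∈ Ico (off J) (off (J + 1)), (1 - x n) ≤ (1 / 4 : ℝ) ^ J) :
    ∀ᵐ θ ∂m, ∃ l : ℂ, l ≠ 0 ∧ Tendsto (fun N => F a (off N) θ) atTop (𝓝 l) := by
  set U : ℕ → TInf → ℂ := fun J θ => ∏ n ∈ Ico (off J) (off (J + 1)), V (a n) 1 (θ n) with hU
  have hUc : ∀ J, Continuous (U J) := fun J =>
    continuous_finsetProd _ fun n _ => coord_continuous hsum (by norm_num) le_rfl n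
  have hU1 : ∀ J θ, ‖U J θ‖ ≤ 1 := by
    intro J θ
    rw [hU]
    simp only
    rw [norm_prod]
    exact prod_le_one (fun n _ => norm_nonneg _) (fun n _ => hle n 1 (by norm_num) le_rfl _)
  have hFU : ∀ N θ, F a (off N) θ = ∏ J ∈ range N, U J θ := by
    intro N θ
    induction N with
    | zero => simp [F, hoff0]
    | succ N ih =>
      rw [prod_range_succ, ← ih]
      unfold F
      rw [prod_range_mul_prod_Ico _ (hoff (Nat.le_succ N))]
  have hL1 : ∀ J, ∫ θ, ‖U J θ - 1‖ ∂m ≤ 2 * (1 / 2 : ℝ) ^ J := by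
    intro J
    have h2 := block_l2 hsum hle hx hx0 hx1 (Ico (off J) (off (J + 1)))
    have h3 := hblock J
    have hδ : (0 : ℝ) < (1 / 2) ^ J := by positivity
    have hc2 : Integrable (fun θ => ‖U J θ - 1‖ ^ 2) m := by
      apply (memLp_top_of_bound (by
        apply Continuous.aestronglyMeasurable
        have := hUc J
        fun_prop) 4 (ae_of_all _ fun θ => ?_)).integrable le_top
      rw [Real.norm_of_nonneg (by positivity)]
      have : ‖U J θ - 1‖ ≤ 2 := (norm_sub_le _ _).trans (by rw [norm_one]; linarith [hU1 J θ])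
      nlinarith [norm_nonneg (U J θ - 1)]
    calc ∫ θ, ‖U J θ - 1‖ ∂m ≤ ∫ θ, ((1 / 2) ^ J / 2 + (2 : ℝ) ^ J / 2 * ‖U J θ - 1‖ ^ 2) ∂m := by
          apply integral_mono_of_nonneg (ae_of_all _ fun θ => norm_nonneg _)
          · exact (integrable_const _).add (hc2.const_mul _)
          · refine ae_of_all _ fun θ => ?_
            simp only
            have hp : (1 / 2 : ℝ) ^ J * 2 ^ J = 1 := by
              rw [← mul_pow]; norm_num
            have h2p : (0 : ℝ) < 2 ^ J := by positivity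
            set y := ‖U J θ - 1‖
            have : 0 ≤ (2 : ℝ) ^ J * ((1 / 2) ^ J - y) ^ 2 := by positivity
            nlinarith
      _ = (1 / 2) ^ J / 2 + (2 : ℝ) ^ J / 2 * ∫ θ, ‖U J θ - 1‖ ^ 2 ∂m := by
          rw [integral_add (integrable_const _) (hc2.const_mul _), integral_const_mul]
          simp
      _ ≤ (1 / 2) ^ J / 2 + (2 : ℝ) ^ J / 2 * (2 * (1 / 4) ^ J) := by
          gcongr
          exact h2.trans (by linarith)
      _ ≤ 2 * (1 / 2 : ℝ) ^ J := by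
          have hp : (2 : ℝ) ^ J * (1 / 4) ^ J = (1 / 2) ^ J := by
            rw [← mul_pow]; norm_num
          nlinarith
  -- a.e. summability
  have hae : ∀ᵐ θ ∂m, Summable fun J => ‖U J θ - 1‖ := by
    have hmeas : ∀ J, Measurable fun θ => (‖U J θ - 1‖₊ : ENNReal) := by
      intro J
      have := (hUc J).measurable
      fun_prop
    have hlin : ∫⁻ θ, ∑' J, (‖U J θ - 1‖₊ : ENNReal) ∂m ≠ ⊤ := by
      rw [lintegral_tsum (fun J => (hmeas J).aemeasurable)]
      have hb : ∀ J, ∫⁻ θ, (‖U J θ - 1‖₊ : ENNReal) ∂m ≤ ENNReal.ofReal (2 * (1 / 2 : ℝ) ^ J) := by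
        intro J
        have hi : Integrable (fun θ => U J θ - 1) m := by
          apply (memLp_top_of_bound (by
            apply Continuous.aestronglyMeasurable
            have := hUc J
            fun_prop) 2 (ae_of_all _ fun θ => ?_)).integrable le_top
          exact (norm_sub_le _ _).trans (by rw [norm_one]; linarith [hU1 J θ])
        have := ofReal_integral_norm_eq_lintegral_enorm hi
        have e : ∫⁻ θ, (‖U J θ - 1‖₊ : ENNReal) ∂m = ENNReal.ofReal (∫ θ, ‖U J θ - 1‖ ∂m) := by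
          rw [this]; rfl
        rw [e]
        exact ENNReal.ofReal_le_ofReal (hL1 J)
      refine ne_top_of_le_ne_top ?_ (ENNReal.tsum_le_tsum hb)
      rw [← ENNReal.ofReal_tsum_of_nonneg]
      · exact ENNReal.ofReal_ne_top
      · intro J; positivity
      · exact (summable_geometric_of_lt_one (by norm_num) (by norm_num)).mul_left 2
    filter_upwards [ae_lt_top' (AEMeasurable.tsum (fun J => (hmeas J).aemeasurable)) hlin]
      with θ hθ
    have h4 := ENNReal.tsum_coe_ne_top_iff_summable.mp hθ.ne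
    have h5 : Summable fun J => ((‖U J θ - 1‖₊ : NNReal) : ℝ) := NNReal.summable_coe.mpr h4
    simpa using h5
  filter_upwards [hae] with θ hθ
  obtain ⟨l, hl0, hl⟩ := prod_converges (fun J => U J θ) (fun J => hU1 J θ)
    (fun J => by
      rw [hU]
      simp only
      rw [prod_ne_zero_iff]
      exact fun n _ => hne n _) hθ
  exact ⟨l, hl0, hl.congr fun N => (hFU N θ).symm⟩

/-- the limit function -/
lemma exists_limit (hsum : ∀ n, Summable fun d => ‖a n d‖)
    (hle : ∀ n, ∀ r : ℝ, 0 ≤ r → r ≤ 1 → ∀ t, ‖V (a n) r t‖ ≤ 1)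
    {off : ℕ → ℕ}
    (hconv : ∀ᵐ θ ∂m, ∃ l : ℂ, l ≠ 0 ∧ Tendsto (fun N => F a (off N) θ) atTop (𝓝 l)) :
    ∃ f : TInf → ℂ, Measurable f ∧ (∀ᵐ θ ∂m, ‖f θ‖ ≤ 1) ∧ (∀ᵐ θ ∂m, f θ ≠ 0) ∧
      ∀ᵐ θ ∂m, Tendsto (fun N => F a (off N) θ) atTop (𝓝 (f θ)) := by
  obtain ⟨f, hf, hlim⟩ := measurable_limit_of_tendsto_metrizable_ae (μ := m) (L := atTop)
    (f := fun N => F a (off N)) (fun N => (F_continuous hsum _).measurable.aemeasurable)
    (hconv.mono fun θ ⟨l, _, hl⟩ => ⟨l, hl⟩)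
  refine ⟨f, hf, ?_, ?_, hlim⟩
  · filter_upwards [hlim] with θ hθ
    exact le_of_tendsto' hθ.norm fun N => F_norm_le hle _ _
  · filter_upwards [hlim, hconv] with θ h1 ⟨l, hl0, hl⟩
    rw [tendsto_nhds_unique h1 hl]
    exact hl0

end data

end Q210.HT
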