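import Pool.Agent.Q210.HT.Prob

open MeasureTheory Filter Topology Finset

namespace Q210.HT

/-- The core construction. -/
theorem core : ∃ (f : TInf → ℂ) (S : ℕ → Set (ℕ →₀ ℝ)), HInfty f ∧
    (∀ J, (S J).Finite ∧ (S J).Nonempty) ∧
    (∀ J, ∀ r ∈ S J, ∀ n, 0 ≤ r n ∧ r n < 1) ∧
    (∀ J, ∀ r ∈ S J, ∀ n, r (n + 1) ≤ r n) ∧
    (∀ J J', J < J' → ∀ r ∈ S J, ∀ r' ∈ S J', ∀ n, r n ≤ r' n) ∧
    (∀ n, ∀ ε > 0, ∀ᶠ J in atTop, ∀ r ∈ S J, 1 - ε < r n) ∧
    ∀ᵐ θ ∂m, f θ ≠ 0 ∧ ∀ᶠ J in atTop, ∃ r ∈ S J, ‖radialValue f r θ‖ ≤ 9 / 10 * ‖f θ‖ := by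
  choose L a' x' R hL hsum' hle' hne' hx' hx0' hx1' hblk hRf hRn hR01 hRanti hRprob
    using block_exists
  -- offsets
  set off : ℕ → ℕ := fun J => ∑ i ∈ range J, L i with hoffdef
  have hoff0 : off 0 = 0 := by simp [hoffdef]
  have hoffs : ∀ J, off (J + 1) = off J + L J := fun J => sum_range_succ _ _
  have hmono : StrictMono off := strictMono_nat_of_lt_succ fun J => by
    rw [hoffs]; have := hL J; omega
  have hex : ∀ n, ∃ J, n < off (J + 1) := fun n => ⟨n, by
    have := hmono.id_le (n + 1)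
    simp only [id] at this
    omega⟩
  classical
  set blk : ℕ → ℕ := fun n => Nat.find (hex n) with hblkdef
  have hblkeq : ∀ J i, i < L J → blk (off J + i) = J := by
    intro J i hi
    rw [hblkdef]
    simp only
    rw [Nat.find_eq_iff]
    constructor
    · rw [hoffs]; omega
    · intro J' hJ'
      have : off (J' + 1) ≤ off J := hmono.monotone (by omega)
      omega
  set a : ℕ → ℕ → ℂ := fun n => a' (blk n) (n - off (blk n)) with ha
  set x : ℕ → ℝ := fun n => x' (blk n) (n - off (blk n)) with hx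
  have haeq : ∀ J i, i < L J → a (off J + i) = a' J i := by
    intro J i hi
    simp only [ha]
    rw [hblkeq J i hi, Nat.add_sub_cancel_left]
  have hxeq : ∀ J i, i < L J → x (off J + i) = x' J i := by
    intro J i hi
    simp only [hx]
    rw [hblkeq J i hi, Nat.add_sub_cancel_left]
  have hsum : ∀ n, Summable fun d => ‖a n d‖ := fun n => hsum' _ _
  have hle : ∀ n, ∀ r : ℝ, 0 ≤ r → r ≤ 1 → ∀ t, ‖V (a n) r t‖ ≤ 1 := fun n => hle' _ _
  have hne : ∀ n t, V (a n) 1 t ≠ 0 := fun n => hne' _ _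
  have hx00 : ∀ n, a n 0 = x n := fun n => hx' _ _
  have hx0 : ∀ n, 0 ≤ x n := fun n => hx0' _ _
  have hx1 : ∀ n, x n ≤ 1 := fun n => hx1' _ _
  have hblock : ∀ J, ∑ n ∈ Ico (off J) (off (J + 1)), (1 - x n) ≤ (1 / 4 : ℝ) ^ J := by
    intro J
    rw [sum_Ico_eq_sum_range, hoffs, Nat.add_sub_cancel_left]
    refine le_trans (le_of_eq ?_) (hblk J)
    refine sum_congr rfl fun i hi => ?_
    rw [hxeq J i (mem_range.mp hi)]
  -- the function
  have hconv := ae_converges hsum hle hne hx00 hx0 hx1 hoff0 hmono.monotone hblock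
  obtain ⟨f, hfm, hf1, hf0, hlim⟩ := exists_limit hsum hle hconv
  have hH : HInfty f := hInfty_of_limit hsum hle hmono.tendsto_atTop hfm hf1 hlim
  -- levels
  choose b hb1 hb using fun J => level_approx hsum hle (off J) (ε := (1 / 2 : ℝ) ^ J) (by positivity)
  have hpb : ∀ J, ∃ pb : ℝ, pb < 1 ∧ ∀ ρ ∈ R J, ∀ i < L J, ρ i ≤ pb := by
    intro J
    have hfin : (Set.image2 (fun (ρ : ℕ → ℝ) (i : ℕ) => ρ i) (R J) (range (L J) : Set ℕ)).Finite :=
      (hRf J).image2 _ (Finset.finite_toSet _)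
    have hne : (Set.image2 (fun (ρ : ℕ → ℝ) (i : ℕ) => ρ i) (R J)
        (range (L J) : Set ℕ)).Nonempty :=
      (hRn J).image2 ⟨0, by simpa using hL J⟩
    obtain ⟨y, hy, hymax⟩ := hfin.exists_maximalFor id _ hne
    obtain ⟨ρ, hρ, i, hi, rfl⟩ := hy
    refine ⟨ρ i, (hR01 J ρ hρ i).2, fun ρ' hρ' i' hi' => ?_⟩
    by_contra hcon
    push Not at hcon
    have := hymax (j := ρ' i') ⟨ρ', hρ', i', by simpa using hi', rfl⟩ hcon.le
    simp only [id] at this
    linarith
  choose pb hpb1 hpb using hpb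
  set B : ℕ → ℝ := fun J => max (max (b J) (pb J)) (1 - 1 / ((J : ℝ) + 1)) with hB
  have hB1 : ∀ J, B J < 1 := by
    intro J
    have : (0 : ℝ) < 1 / ((J : ℝ) + 1) := by positivity
    exact max_lt (max_lt (hb1 J) (hpb1 J)) (by linarith)
  set ℓ : ℕ → ℝ := fun J => partialSups B J with hℓ
  have hℓmono : Monotone ℓ := (partialSups B).monotone
  have hℓB : ∀ J, B J ≤ ℓ J := fun J => le_partialSups B J
  have hℓ1 : ∀ J, ℓ J < 1 := by
    intro J
    induction J with
    | zero => simpa [hℓ] using hB1 0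
    | succ J ih =>
      simp only [hℓ] at ih ⊢
      rw [partialSups_add_one]
      exact max_lt ih (hB1 _)
  have hℓb : ∀ J, b J ≤ ℓ J := fun J =>
    ((le_max_left _ _).trans (le_max_left _ _)).trans (hℓB J)
  have hℓpb : ∀ J, pb J ≤ ℓ J := fun J =>
    ((le_max_right _ _).trans (le_max_left _ _)).trans (hℓB J)
  have hℓlow : ∀ J : ℕ, 1 - 1 / ((J : ℝ) + 1) ≤ ℓ J := fun J => (le_max_right _ _).trans (hℓB J)
  have hℓ0 : ∀ J, 0 ≤ ℓ J := by
    intro J
    refine le_trans ?_ (hℓlow J)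
    have : 1 / ((J : ℝ) + 1) ≤ 1 := by
      rw [div_le_one (by positivity)]
      have : (0 : ℝ) ≤ J := Nat.cast_nonneg J
      linarith
    linarith
  -- the radii
  set val : ℕ → (ℕ → ℝ) → ℕ → ℝ := fun J ρ n =>
    if n < off J then ℓ J else if n < off (J + 1) then ρ (n - off J) else 0 with hval
  set rr : ℕ → (ℕ → ℝ) → (ℕ →₀ ℝ) := fun J ρ =>
    Finsupp.onFinset (range (off (J + 1))) (val J ρ) (by
      intro n hn
      rw [mem_range]
      by_contra h
      apply hn
      simp only [hval]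
      rw [if_neg, if_neg h]
      have : off J < off (J + 1) := hmono (Nat.lt_succ_self J)
      omega) with hrr
  have hrrval : ∀ J ρ n, rr J ρ n = val J ρ n := fun J ρ n => rfl
  have hsupp : ∀ J ρ, (rr J ρ).support ⊆ range (off (J + 1)) := fun J ρ =>
    Finsupp.support_onFinset_subset
  have h01 : ∀ J, ∀ ρ ∈ R J, ∀ n, 0 ≤ rr J ρ n ∧ rr J ρ n < 1 := by
    intro J ρ hρ n
    rw [hrrval]
    simp only [hval]
    split_ifs
    · exact ⟨hℓ0 J, hℓ1 J⟩
    · exact hR01 J ρ hρ _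
    · norm_num
  refine ⟨f, fun J => (rr J) '' (R J), hH, fun J => ⟨(hRf J).image _, (hRn J).image _⟩, ?_, ?_, ?_,
    ?_, ?_⟩
  · rintro J _ ⟨ρ, hρ, rfl⟩ n
    exact h01 J ρ hρ n
  · rintro J _ ⟨ρ, hρ, rfl⟩ n
    rw [hrrval, hrrval]
    simp only [hval]
    have h1 : off J < off (J + 1) := hmono (Nat.lt_succ_self J)
    have h2 := hoffs J
    by_cases c1 : n + 1 < off J
    · rw [if_pos c1, if_pos (by omega : n < off J)]
    · rw [if_neg c1]
      by_cases c2 : n < off J
      · rw [if_pos c2]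
        split_ifs with c3
        · exact (hpb J ρ hρ _ (by omega)).trans (hℓpb J)
        · exact hℓ0 J
      · rw [if_neg c2]
        by_cases c3 : n + 1 < off (J + 1)
        · rw [if_pos c3, if_pos (by omega : n < off (J + 1))]
          have := hRanti J ρ hρ (n - off J) (by omega)
          rw [show n + 1 - off J = n - off J + 1 by omega]
          exact this
        · rw [if_neg c3]
          split_ifs
          · exact (hR01 J ρ hρ _).1
          · exact le_rfl
  · rintro J J' hJJ _ ⟨ρ, hρ, rfl⟩ _ ⟨ρ', hρ', rfl⟩ n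
    rw [hrrval, hrrval]
    simp only [hval]
    have h1 : off J < off (J + 1) := hmono (Nat.lt_succ_self J)
    have h2 := hoffs J
    have h3 : off (J + 1) ≤ off J' := hmono.monotone hJJ
    by_cases c1 : n < off J
    · rw [if_pos c1, if_pos (by omega : n < off J')]
      exact hℓmono hJJ.le
    · rw [if_neg c1]
      by_cases c2 : n < off (J + 1)
      · rw [if_pos c2, if_pos (by omega : n < off J')]
        exact ((hpb J ρ hρ _ (by omega)).trans (hℓpb J)).trans (hℓmono hJJ.le)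
      · rw [if_neg c2]
        split_ifs
        · exact hℓ0 _
        · exact (hR01 J' ρ' hρ' _).1
        · exact le_rfl
  · intro n ε hε
    have hlim0 : Tendsto (fun J : ℕ => 1 / ((J : ℝ) + 1)) atTop (𝓝 0) :=
      tendsto_one_div_add_atTop_nhds_zero_nat
    filter_upwards [hlim0.eventually_lt_const hε, eventually_gt_atTop n] with J hJ hnJ
    rintro _ ⟨ρ, hρ, rfl⟩
    rw [hrrval]
    simp only [hval]
    have : J ≤ off J := hmono.id_le J
    rw [if_pos (by omega)]
    have := hℓlow J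
    linarith
  · -- almost every point
    have hBC : ∀ᵐ θ ∂m, ∀ᶠ J in atTop, θ ∉ {θ : TInf | ∀ ρ ∈ R J, Real.exp (-1 / 2) <
        ∏ i ∈ range (L J), ‖V (a' J i) (ρ i) (θ (off J + i))‖} := by
      apply ae_eventually_notMem
      refine ne_top_of_le_ne_top ?_ (ENNReal.tsum_le_tsum (g := fun J : ℕ =>
        ENNReal.ofReal ((1 / 2 : ℝ) ^ J)) fun J => ?_)
      · rw [← ENNReal.ofReal_tsum_of_nonneg (fun J => by positivity)
          (summable_geometric_of_lt_one (by norm_num) (by norm_num))]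
        exact ENNReal.ofReal_ne_top
      · rw [ENNReal.le_ofReal_iff_toReal_le (measure_ne_top _ _) (by positivity)]
        exact hRprob J (off J)
    filter_upwards [hf0, hlim, hBC] with θ hθ0 hθlim hθBC
    refine ⟨hθ0, ?_⟩
    have hfpos : 0 < ‖f θ‖ := norm_pos_iff.mpr hθ0
    -- `(‖F‖ + 2^{-J}) e^{-1/2} ≤ 9/10 ‖f‖` eventually
    have hexp : Real.exp (-1 / 2) < 9 / 10 := by
      have h1 : Real.exp (-1 / 2) * Real.exp (1 / 2) = 1 := by
        rw [← Real.exp_add]; norm_num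
      have h2 := Real.add_one_le_exp (1 / 2 : ℝ)
      have h3 := Real.exp_pos (-1 / 2 : ℝ)
      nlinarith
    have hlim2 : Tendsto (fun J => (‖F a (off J) θ‖ + (1 / 2 : ℝ) ^ J) * Real.exp (-1 / 2)) atTop
        (𝓝 ((‖f θ‖ + 0) * Real.exp (-1 / 2))) :=
      (hθlim.norm.add (tendsto_pow_atTop_nhds_zero_of_lt_one (by norm_num) (by norm_num))).mul_const _
    have hlt : (‖f θ‖ + 0) * Real.exp (-1 / 2) < 9 / 10 * ‖f θ‖ := by nlinarith
    filter_upwards [hθBC, hlim2.eventually_lt_const hlt] with J hJ1 hJ2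
    replace hJ1 : ¬ ∀ ρ ∈ R J, Real.exp (-1 / 2) <
        ∏ i ∈ range (L J), ‖V (a' J i) (ρ i) (θ (off J + i))‖ := hJ1
    push Not at hJ1
    obtain ⟨ρ, hρ, hprod⟩ := hJ1
    refine ⟨rr J ρ, ⟨ρ, hρ, rfl⟩, ?_⟩
    have h1 := radialValue_le hsum hle hmono.monotone hlim (rr J ρ) (fun n => (h01 J ρ hρ n).1)
      (fun n => (h01 J ρ hρ n).2) (J + 1) (hsupp J ρ) θ
    have h2 : ∏ n ∈ range (off (J + 1)), ‖V (a n) (rr J ρ n) (θ n)‖ =
        (∏ n ∈ range (off J), ‖V (a n) (ℓ J) (θ n)‖) *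
          ∏ i ∈ range (L J), ‖V (a' J i) (ρ i) (θ (off J + i))‖ := by
      rw [hoffs, prod_range_add]
      congr 1
      · refine prod_congr rfl fun n hn => ?_
        rw [hrrval]
        simp only [hval]
        rw [if_pos (mem_range.mp hn)]
      · refine prod_congr rfl fun i hi => ?_
        rw [hrrval, haeq J i (mem_range.mp hi)]
        simp only [hval]
        rw [if_neg (by omega), if_pos (by rw [hoffs]; have := mem_range.mp hi; omega),
          Nat.add_sub_cancel_left]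
    have h3 := hb J (ℓ J) (hℓ0 J) (hℓb J) (hℓ1 J).le θ
    calc ‖radialValue f (rr J ρ) θ‖ ≤ _ := h1
      _ = _ := h2
      _ ≤ (‖F a (off J) θ‖ + (1 / 2 : ℝ) ^ J) * Real.exp (-1 / 2) := by
          apply mul_le_mul h3 hprod (prod_nonneg fun _ _ => norm_nonneg _)
          positivity
      _ ≤ _ := hJ2.le

/-- Point-dependent approaches. -/
theorem pointDependent : ∃ f : TInf → ℂ, HInfty f ∧ ∀ᵐ θ ∂m, ∃ r : ℕ → ℕ →₀ ℝ,
    (∀ k n, 0 ≤ r k n ∧ r k n < 1) ∧ (∀ n, Monotone fun k => r k n) ∧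
    (∀ n, Tendsto (fun k => r k n) atTop (𝓝 1)) ∧ (∀ k n, r k (n + 1) ≤ r k n) ∧
    ¬ Tendsto (fun k => radialValue f (r k) θ) atTop (𝓝 (f θ)) := by
  obtain ⟨f, S, hH, hfin, h01, hanti, hmono, hone, hae⟩ := core
  refine ⟨f, hH, ?_⟩
  filter_upwards [hae] with θ ⟨h0, hev⟩
  obtain ⟨J0, hJ0⟩ := eventually_atTop.mp hev
  choose r hr hrb using fun k => hJ0 (J0 + k) (by omega)
  refine ⟨r, fun k n => h01 _ _ (hr k) n, ?_, ?_, fun k n => hanti _ _ (hr k) n, ?_⟩
  · intro n
    apply monotone_nat_of_le_succ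
    intro k
    exact hmono (J0 + k) (J0 + (k + 1)) (by omega) _ (hr k) _ (hr (k + 1)) n
  · intro n
    rw [Metric.tendsto_atTop]
    intro ε hε
    obtain ⟨N, hN⟩ := eventually_atTop.mp (hone n ε hε)
    refine ⟨N, fun k hk => ?_⟩
    have h1 := hN (J0 + k) (by omega) _ (hr k)
    have h2 := (h01 _ _ (hr k) n).2
    rw [Real.dist_eq, abs_sub_lt_iff]
    constructor <;> linarith
  · intro hT
    have h1 := le_of_tendsto' hT.norm hrb
    have h2 : 0 < ‖f θ‖ := norm_pos_iff.mpr h0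
    linarith

/-- A point-independent approach. -/
theorem pointIndependent : ∃ f : TInf → ℂ, HInfty f ∧ ∃ r : ℕ → ℕ →₀ ℝ,
    (∀ k n, 0 ≤ r k n ∧ r k n < 1) ∧ (∀ n, Tendsto (fun k => r k n) atTop (𝓝 1)) ∧
    (∀ k n, r k (n + 1) ≤ r k n) ∧
    ∀ᵐ θ ∂m, ¬ Tendsto (fun k => radialValue f (r k) θ) atTop (𝓝 (f θ)) := by
  obtain ⟨f, S, hH, hfin, h01, hanti, hmono, hone, hae⟩ := core
  refine ⟨f, hH, ?_⟩
  have : ∀ J, Finite (S J) := fun J => (hfin J).1
  have : ∀ J, Nonempty (S J) := fun J => (hfin J).2.to_subtype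
  have : Countable (Σ J, S J) := inferInstance
  have : Infinite (Σ J, S J) := by
    apply Infinite.of_surjective (fun p : Σ J, S J => p.1)
    intro J
    exact ⟨⟨J, Classical.arbitrary _⟩, rfl⟩
  obtain ⟨e⟩ : Nonempty (ℕ ≃ Σ J, S J) := nonempty_equiv_of_countable
  have hJ : Tendsto (fun k => (e k).1) atTop atTop := by
    rw [← Nat.cofinite_eq_atTop]
    have h1 : Tendsto (fun p : Σ J, S J => p.1) cofinite cofinite := by
      apply Filter.Tendsto.cofinite_of_finite_preimage_singleton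
      intro J
      have : (fun p : Σ J, S J => p.1) ⁻¹' {J} = Set.range (fun s : S J => (⟨J, s⟩ : Σ J, S J)) := by
        ext ⟨J', s⟩
        constructor
        · intro h
          have h' : J' = J := h
          subst h'
          exact ⟨s, rfl⟩
        · rintro ⟨s', hs'⟩
          have : J = J' := congrArg Sigma.fst hs'
          exact this.symm
      rw [this]
      exact Set.finite_range _
    exact h1.comp e.injective.tendsto_cofinite
  refine ⟨fun k => ((e k).2 : ℕ →₀ ℝ), fun k n => h01 _ _ (e k).2.2 n, ?_,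
    fun k n => hanti _ _ (e k).2.2 n, ?_⟩
  · intro n
    rw [Metric.tendsto_atTop]
    intro ε hε
    obtain ⟨N, hN⟩ := eventually_atTop.mp (hJ.eventually (hone n ε hε))
    refine ⟨N, fun k hk => ?_⟩
    have h1 := hN k hk _ (e k).2.2
    have h2 := (h01 _ _ (e k).2.2 n).2
    rw [Real.dist_eq, abs_sub_lt_iff]
    constructor <;> linarith
  · filter_upwards [hae] with θ ⟨h0, hev⟩
    intro hT
    obtain ⟨J0, hJ0⟩ := eventually_atTop.mp hev
    have h2 : 0 < ‖f θ‖ := norm_pos_iff.mpr h0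
    have h3 := (hT.norm.eventually_const_lt (show 9 / 10 * ‖f θ‖ < ‖f θ‖ by linarith))
    obtain ⟨K0, hK0⟩ := eventually_atTop.mp h3
    -- choose a level above `J0` and above all levels of the indices `< K0`
    obtain ⟨J1, hJ1⟩ : ∃ J1, ∀ k < K0, (e k).1 < J1 := by
      refine ⟨(range K0).sup (fun k => (e k).1) + 1, fun k hk => ?_⟩
      have := Finset.le_sup (f := fun k => (e k).1) (mem_range.mpr hk)
      exact Nat.lt_succ_of_le this
    obtain ⟨r, hr, hrb⟩ := hJ0 (max J0 J1) (le_max_left _ _)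
    set k := e.symm ⟨max J0 J1, ⟨r, hr⟩⟩ with hk
    have hek : e k = ⟨max J0 J1, ⟨r, hr⟩⟩ := by rw [hk, Equiv.apply_symm_apply]
    have hkK : K0 ≤ k := by
      by_contra hcon
      push Not at hcon
      have := hJ1 k hcon
      rw [hek] at this
      have := le_max_right J0 J1
      simp only at *
      omega
    have := hK0 k hkK
    rw [hek] at this
    simp only at this
    linarith

end Q210.HT
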