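import Pool.Agent.Q210.HT.Blk

open MeasureTheory Filter Topology Finset

namespace Q210.HT

/-- the annulus of points at distance about `2^{-j}` -/
def Ann (j : ℕ) : Set UnitAddCircle := {t | (1 / 2 : ℝ) ^ (j + 3) < ‖t‖ ∧ ‖t‖ ≤ (1 / 2 : ℝ) ^ (j + 2)}

lemma Ann_eq (j : ℕ) : Ann j = Metric.closedBall (0 : UnitAddCircle) ((1 / 2 : ℝ) ^ (j + 2)) \
    Metric.closedBall (0 : UnitAddCircle) ((1 / 2 : ℝ) ^ (j + 3)) := by
  ext t
  simp only [Ann, Set.mem_ofPred_eq, Set.mem_sdiff, Metric.mem_closedBall, dist_zero_right, not_le]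
  exact and_comm

lemma Ann_meas (j : ℕ) : MeasurableSet (Ann j) := by
  rw [Ann_eq]
  exact Metric.isClosed_closedBall.measurableSet.diff Metric.isClosed_closedBall.measurableSet

lemma haar_eq : (AddCircle.haarAddCircle : Measure UnitAddCircle) = volume := by
  have := AddCircle.volume_eq_smul_haarAddCircle (T := (1 : ℝ))
  rw [this]; simp

lemma ball_real (j : ℕ) :
    (AddCircle.haarAddCircle : Measure UnitAddCircle).real
      (Metric.closedBall (0 : UnitAddCircle) ((1 / 2 : ℝ) ^ (j + 2))) = 2 * (1 / 2 : ℝ) ^ (j + 2) := by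
  rw [haar_eq, measureReal_def, AddCircle.volume_closedBall]
  have h1 : 2 * (1 / 2 : ℝ) ^ (j + 2) ≤ 1 := by
    have : (1 / 2 : ℝ) ^ (j + 2) ≤ (1 / 2) ^ 2 :=
      pow_le_pow_of_le_one (by norm_num) (by norm_num) (by omega)
    linarith
  rw [min_eq_right h1, ENNReal.toReal_ofReal (by positivity)]

lemma Ann_real (j : ℕ) :
    (AddCircle.haarAddCircle : Measure UnitAddCircle).real (Ann j) = (1 / 2 : ℝ) ^ (j + 2) := by
  rw [Ann_eq, measureReal_sdiff (Metric.closedBall_subset_closedBall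
    (pow_le_pow_of_le_one (by norm_num) (by norm_num) (by omega)))
    Metric.isClosed_closedBall.measurableSet, ball_real, ball_real (j + 1)]
  ring

/-- the gain function -/
noncomputable def Y (q : ℕ) (t : UnitAddCircle) : ℝ :=
  ∑ j ∈ Icc 1 q, (Ann j).indicator (fun _ => (2 : ℝ) ^ j * (1 / 2) ^ q / 64) t

lemma Y_measurable (q : ℕ) : Measurable (Y q) := by
  unfold Y
  apply Finset.measurable_sum
  intro j _
  exact measurable_const.indicator (Ann_meas j)

lemma Y_nonneg (q : ℕ) (t : UnitAddCircle) : 0 ≤ Y q t := by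
  unfold Y
  apply sum_nonneg
  intro j _
  exact Set.indicator_nonneg (fun _ _ => by positivity) t

lemma Y_le_one (q : ℕ) (t : UnitAddCircle) : Y q t ≤ 1 := by
  unfold Y
  calc ∑ j ∈ Icc 1 q, (Ann j).indicator (fun _ => (2 : ℝ) ^ j * (1 / 2) ^ q / 64) t
      ≤ ∑ j ∈ Icc 1 q, (2 : ℝ) ^ j * (1 / 2) ^ q / 64 := by
        apply sum_le_sum
        intro j _
        apply Set.indicator_le_self' (fun _ _ => by positivity)
    _ ≤ ∑ j ∈ range (q + 1), (2 : ℝ) ^ j * (1 / 2) ^ q / 64 := by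
        apply sum_le_sum_of_subset_of_nonneg
        · intro j hj
          rw [mem_Icc] at hj
          rw [mem_range]; omega
        · intro j _ _; positivity
    _ = (∑ j ∈ range (q + 1), (2 : ℝ) ^ j) * ((1 / 2) ^ q / 64) := by
        rw [sum_mul]
        exact sum_congr rfl fun j _ => by ring
    _ ≤ 1 := by
        rw [geom_sum_eq (by norm_num)]
        have h1 : (2 : ℝ) ^ q * (1 / 2) ^ q = 1 := by rw [← mul_pow]; norm_num
        have h2 : (0 : ℝ) < (1 / 2 : ℝ) ^ q := by positivity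
        rw [pow_succ]
        nlinarith

lemma Y_integrable (q : ℕ) : Integrable (Y q) (AddCircle.haarAddCircle : Measure UnitAddCircle) :=
  (memLp_top_of_bound (Y_measurable q).aestronglyMeasurable 1 (ae_of_all _ fun t => by
    rw [Real.norm_of_nonneg (Y_nonneg q t)]; exact Y_le_one q t)).integrable le_top

lemma integral_Y (q : ℕ) :
    ∫ t, Y q t ∂(AddCircle.haarAddCircle : Measure UnitAddCircle) = q * (1 / 2) ^ q / 256 := by
  unfold Y
  rw [integral_finsetSum]
  · have : ∀ j ∈ Icc 1 q, ∫ t, (Ann j).indicator (fun _ => (2 : ℝ) ^ j * (1 / 2) ^ q / 64) t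
        ∂(AddCircle.haarAddCircle : Measure UnitAddCircle) = (1 / 2) ^ q / 256 := by
      intro j _
      rw [integral_indicator (Ann_meas j), setIntegral_const, Ann_real, smul_eq_mul]
      have h1 : (2 : ℝ) ^ j * (1 / 2) ^ j = 1 := by rw [← mul_pow]; norm_num
      rw [pow_add]
      linear_combination ((1 / 2 : ℝ) ^ q / 256) * h1
    rw [sum_congr rfl this, sum_const, Nat.card_Icc, nsmul_eq_mul]
    simp
    ring
  · intro j _
    exact (integrable_const _).indicator (Ann_meas j)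

lemma integral_exp_Y (q : ℕ) :
    ∫ t, Real.exp (-Y q t) ∂(AddCircle.haarAddCircle : Measure UnitAddCircle) ≤
      Real.exp (-(q * (1 / 2) ^ q / 512)) := by
  have h1 : ∀ t, Real.exp (-Y q t) ≤ 1 - Y q t / 2 := by
    intro t
    have h0 := Y_nonneg q t
    have h1 := Y_le_one q t
    -- exp(-y) ≤ 1 - y + y^2/2 ≤ 1 - y/2
    have h2 : Real.exp (-Y q t) * (1 + Y q t) ≤ 1 := by
      have h3 := Real.add_one_le_exp (Y q t)
      have h4 : Real.exp (-Y q t) * Real.exp (Y q t) = 1 := by rw [← Real.exp_add]; simp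
      have h5 := Real.exp_pos (-Y q t)
      nlinarith
    have h6 : 1 ≤ (1 - Y q t / 2) * (1 + Y q t) := by nlinarith
    have h7 : 0 < 1 + Y q t := by linarith
    nlinarith
  calc ∫ t, Real.exp (-Y q t) ∂(AddCircle.haarAddCircle : Measure UnitAddCircle)
      ≤ ∫ t, (1 - Y q t / 2) ∂(AddCircle.haarAddCircle : Measure UnitAddCircle) := by
        apply integral_mono_of_nonneg (ae_of_all _ fun t => (Real.exp_pos _).le)
        · exact (integrable_const _).sub ((Y_integrable q).div_const 2)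
        · exact ae_of_all _ h1
    _ = 1 - (q * (1 / 2) ^ q / 256) / 2 := by
        rw [integral_sub (integrable_const _) ((Y_integrable q).div_const 2), integral_div,
          integral_Y]
        simp
    _ ≤ Real.exp (-(q * (1 / 2) ^ q / 512)) := by
        have := Real.add_one_le_exp (-(q * (1 / 2 : ℝ) ^ q / 512))
        linarith

lemma integral_exp_Y_mul (q : ℕ) {k : ℕ} (hk : 0 < k) :
    ∫ t, Real.exp (-Y q (k • t)) ∂(AddCircle.haarAddCircle : Measure UnitAddCircle) ≤
      Real.exp (-(q * (1 / 2) ^ q / 512)) := by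
  have hmp := Measure.measurePreserving_zsmul (AddCircle.haarAddCircle : Measure UnitAddCircle)
    (n := (k : ℤ)) (by positivity)
  have h2 : Measurable fun t : UnitAddCircle => Real.exp (-Y q t) := by
    have := Y_measurable q
    fun_prop
  have h1 := integral_map (μ := (AddCircle.haarAddCircle : Measure UnitAddCircle))
    hmp.measurable.aemeasurable (f := fun t => Real.exp (-Y q t)) h2.aestronglyMeasurable
  rw [hmp.map_eq] at h1
  have h3 := integral_exp_Y q
  rw [h1] at h3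
  simpa using h3

/-- the radius realising `r^k = 1 - 2^{-j}` -/
noncomputable def rad (k j : ℕ) : ℝ := (1 - (1 / 2 : ℝ) ^ j) ^ ((1 : ℝ) / k)

lemma base_nonneg (j : ℕ) : 0 ≤ 1 - (1 / 2 : ℝ) ^ j := by
  have : (1 / 2 : ℝ) ^ j ≤ 1 := pow_le_one₀ (by norm_num) (by norm_num)
  linarith

lemma rad_nonneg (k j : ℕ) : 0 ≤ rad k j := Real.rpow_nonneg (base_nonneg j) _

lemma rad_pow {k : ℕ} (hk : 0 < k) (j : ℕ) : rad k j ^ k = 1 - (1 / 2) ^ j := by
  unfold rad
  rw [one_div ((k : ℕ) : ℝ), Real.rpow_inv_natCast_pow (base_nonneg j) hk.ne']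

lemma rad_lt_one {k : ℕ} (hk : 0 < k) (j : ℕ) : rad k j < 1 := by
  by_contra h
  push Not at h
  have h1 : 1 ≤ rad k j ^ k := one_le_pow₀ h
  rw [rad_pow hk] at h1
  have : (0 : ℝ) < (1 / 2 : ℝ) ^ j := by positivity
  linarith

lemma pointwise (q : ℕ) (hq : 1 ≤ q) {k : ℕ} (hk : 0 < k) (t : UnitAddCircle) :
    ∃ j : ℕ, 1 ≤ j ∧ j ≤ q ∧
      ‖V (coef (cc q) (ss q) k) (rad k j) t‖ ≤ Real.exp (-Y q (k • t) / 2) := by
  by_cases h : ∃ j ∈ Icc 1 q, k • t ∈ Ann j
  · obtain ⟨j, hj, hjt⟩ := h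
    rw [mem_Icc] at hj
    refine ⟨j, hj.1, hj.2, ?_⟩
    have hY : Y q (k • t) = 2 ^ j * (1 / 2) ^ q / 64 := by
      unfold Y
      rw [sum_eq_single_of_mem j (mem_Icc.mpr hj)]
      · rw [Set.indicator_of_mem hjt]
      · intro i _ hij
        rw [Set.indicator_of_notMem]
        intro hit
        obtain ⟨a1, a2⟩ := hjt
        obtain ⟨b1, b2⟩ := hit
        rcases lt_or_gt_of_ne hij with h | h
        · have : (1 / 2 : ℝ) ^ (j + 2) ≤ (1 / 2) ^ (i + 3) :=
            pow_le_pow_of_le_one (by norm_num) (by norm_num) (by omega)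
          linarith
        · have : (1 / 2 : ℝ) ^ (i + 2) ≤ (1 / 2) ^ (j + 3) :=
            pow_le_pow_of_le_one (by norm_num) (by norm_num) (by omega)
          linarith
    rw [hY]
    exact gain hk hj.2 (rad_nonneg k j) (rad_lt_one hk j).le (rad_pow hk j) hjt.2
  · push Not at h
    refine ⟨1, le_rfl, hq, ?_⟩
    have hY : Y q (k • t) = 0 := by
      unfold Y
      apply sum_eq_zero
      intro j hj
      rw [Set.indicator_of_notMem (h j hj)]
    rw [hY]
    simpa using V_norm_le_one q hk (rad_nonneg k 1) (rad_lt_one hk 1).le t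

/-- the exponential moment bound -/
lemma prob_bound (q L : ℕ) (k : ℕ → ℕ) (hk : ∀ i, 0 < k i) (o : ℕ) :
    m.real {θ : TInf | ∑ i ∈ range L, Y q (k i • θ (o + i)) < 1} ≤
      Real.exp (1 - L * (q * (1 / 2) ^ q / 512)) := by
  set g : ℕ → UnitAddCircle → ℝ := fun n t => Real.exp (-Y q (k (n - o) • t)) with hg
  have hgm : ∀ n, Measurable (g n) := by
    intro n
    have h1 := Y_measurable q
    have h2 : Measurable fun t : UnitAddCircle => k (n - o) • t := by
      apply Continuous.measurable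
      fun_prop
    exact (h1.comp h2).neg.exp
  have hprod : ∀ θ : TInf, ∏ n ∈ Ico o (o + L), g n (θ n) =
      Real.exp (-∑ i ∈ range L, Y q (k i • θ (o + i))) := by
    intro θ
    rw [prod_Ico_eq_prod_range, ← sum_neg_distrib, Real.exp_sum, Nat.add_sub_cancel_left]
    refine prod_congr rfl fun i _ => ?_
    rw [hg]
    simp
  have h1 : ∫ θ, ∏ n ∈ Ico o (o + L), g n (θ n) ∂m ≤ Real.exp (-(L * (q * (1 / 2) ^ q / 512))) := by
    rw [integral_prod_coord_real _ g hgm]
    calc ∏ n ∈ Ico o (o + L), ∫ t, g n t ∂AddCircle.haarAddCircle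
        ≤ ∏ _n ∈ Ico o (o + L), Real.exp (-(q * (1 / 2) ^ q / 512)) := by
          apply Finset.prod_le_prod
          · intro n _
            exact integral_nonneg fun t => (Real.exp_pos _).le
          · intro n _
            exact integral_exp_Y_mul q (hk _)
      _ = Real.exp (-(L * (q * (1 / 2) ^ q / 512))) := by
          rw [prod_const, Nat.card_Ico, Nat.add_sub_cancel_left, ← Real.exp_nat_mul]
          congr 1; ring
  have hint : Integrable (fun θ : TInf => ∏ n ∈ Ico o (o + L), g n (θ n)) m := by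
    apply (memLp_top_of_bound _ 1 (ae_of_all _ fun θ => ?_)).integrable le_top
    · apply Measurable.aestronglyMeasurable
      apply Finset.measurable_prod
      intro n _
      exact (hgm n).comp (measurable_pi_apply n)
    · rw [hprod, Real.norm_of_nonneg (Real.exp_pos _).le]
      apply Real.exp_le_one_iff.mpr
      have := sum_nonneg (s := range L) (f := fun i => Y q (k i • θ (o + i)))
        (fun i _ => Y_nonneg q _)
      linarith
  have h2 := mul_meas_ge_le_integral_of_nonneg (μ := m)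
    (f := fun θ : TInf => ∏ n ∈ Ico o (o + L), g n (θ n))
    (ae_of_all _ fun θ => prod_nonneg fun n _ => (Real.exp_pos _).le) hint (Real.exp (-1))
  have h3 : m.real {θ : TInf | ∑ i ∈ range L, Y q (k i • θ (o + i)) < 1} ≤
      m.real {θ : TInf | Real.exp (-1) ≤ ∏ n ∈ Ico o (o + L), g n (θ n)} := by
    apply measureReal_mono _ (measure_ne_top _ _)
    intro θ hθ
    simp only [Set.mem_ofPred_eq] at hθ ⊢
    rw [hprod]
    apply Real.exp_le_exp.mpr
    linarith
  have h4 : Real.exp (1 - L * (q * (1 / 2) ^ q / 512)) =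
      Real.exp 1 * Real.exp (-(L * (q * (1 / 2) ^ q / 512))) := by
    rw [← Real.exp_add]; congr 1
  have h5 : Real.exp 1 * Real.exp (-1) = 1 := by rw [← Real.exp_add]; simp
  have h6 := Real.exp_pos 1
  rw [h4]
  calc m.real {θ : TInf | ∑ i ∈ range L, Y q (k i • θ (o + i)) < 1}
      ≤ m.real {θ : TInf | Real.exp (-1) ≤ ∏ n ∈ Ico o (o + L), g n (θ n)} := h3
    _ = Real.exp 1 * (Real.exp (-1) *
        m.real {θ : TInf | Real.exp (-1) ≤ ∏ n ∈ Ico o (o + L), g n (θ n)}) := by
        rw [← mul_assoc, h5, one_mul]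
    _ ≤ Real.exp 1 * Real.exp (-(L * (q * (1 / 2) ^ q / 512))) := by
        gcongr
        exact h2.trans h1

/-- Existence of a good block. -/
lemma block_exists (J : ℕ) : ∃ (L : ℕ) (a : ℕ → ℕ → ℂ) (x : ℕ → ℝ) (R : Set (ℕ → ℝ)),
    0 < L ∧ (∀ i, Summable fun d => ‖a i d‖) ∧
    (∀ i, ∀ r : ℝ, 0 ≤ r → r ≤ 1 → ∀ t, ‖V (a i) r t‖ ≤ 1) ∧
    (∀ i t, V (a i) 1 t ≠ 0) ∧ (∀ i, a i 0 = x i) ∧ (∀ i, 0 ≤ x i) ∧ (∀ i, x i ≤ 1) ∧
    ∑ i ∈ range L, (1 - x i) ≤ (1 / 4 : ℝ) ^ J ∧ R.Finite ∧ R.Nonempty ∧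
    (∀ ρ ∈ R, ∀ i, 0 ≤ ρ i ∧ ρ i < 1) ∧ (∀ ρ ∈ R, ∀ i, i + 1 < L → ρ (i + 1) ≤ ρ i) ∧
    ∀ o, m.real {θ : TInf | ∀ ρ ∈ R, Real.exp (-1 / 2) <
      ∏ i ∈ range L, ‖V (a i) (ρ i) (θ (o + i))‖} ≤ (1 / 2 : ℝ) ^ J := by
  set q : ℕ := 512 * 4 ^ J * (J + 2) with hq
  have hJ4 : J < 4 ^ J := Nat.lt_pow_self (by norm_num)
  have hqJ : 2 * J ≤ q := by
    rw [hq]; nlinarith
  have hq1 : 1 ≤ q := by
    rw [hq]
    have : 0 < 4 ^ J := by positivity
    nlinarith
  set L : ℕ := 2 ^ (q + 2 - 2 * J) with hL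
  have hLpos : 0 < L := by positivity
  have hLr : (L : ℝ) * (1 / 2) ^ q = 4 * (1 / 4) ^ J := by
    have h1 : (L : ℝ) * 4 ^ J = 2 ^ (q + 2) := by
      rw [hL]
      push_cast
      rw [show (4 : ℝ) ^ J = 2 ^ (2 * J) by rw [pow_mul]; norm_num, ← pow_add]
      congr 1; omega
    have h2 : (2 : ℝ) ^ q * (1 / 2) ^ q = 1 := by rw [← mul_pow]; norm_num
    have h3 : (4 : ℝ) ^ J * (1 / 4) ^ J = 1 := by rw [← mul_pow]; norm_num
    calc (L : ℝ) * (1 / 2) ^ q = ((L : ℝ) * 4 ^ J) * (1 / 4) ^ J * (1 / 2) ^ q := by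
          rw [mul_assoc (L : ℝ), h3, mul_one]
      _ = 4 * (1 / 4) ^ J := by
          rw [h1, pow_add]
          linear_combination (4 * (1 / 4 : ℝ) ^ J) * h2
  set K : ℕ := 2 ^ q with hK
  set k : ℕ → ℕ := fun i => K ^ (L - 1 - i) with hk
  have hkpos : ∀ i, 0 < k i := fun i => by positivity
  set R : Set (ℕ → ℝ) := Set.range (fun τ : Fin L → Fin q => fun i : ℕ =>
    if h : i < L then rad (k i) ((τ ⟨i, h⟩ : ℕ) + 1) else 0) with hR
  refine ⟨L, fun i => coef (cc q) (ss q) (k i), fun _ => 1 - cc q, R, hLpos,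
    fun i => coef_summable (hkpos i) (ss_nonneg q) (ss_lt_one q),
    fun i r h0 h1 t => V_norm_le_one q (hkpos i) h0 h1 t, fun i t => V_ne_zero q (hkpos i) t,
    ?_, ?_, ?_, ?_, ?_, ?_, ?_, ?_, ?_⟩
  · intro i
    simp [coef]
  · intro i
    have : cc q ≤ 1 := by
      unfold cc
      have : (1 / 2 : ℝ) ^ q ≤ 1 := pow_le_one₀ (by norm_num) (by norm_num)
      linarith
    linarith
  · intro i
    have := cc_pos q
    linarith
  · simp only [sub_sub_cancel, sum_const, card_range, nsmul_eq_mul]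
    unfold cc
    linarith
  · exact Set.finite_range _
  · exact ⟨_, ⟨fun _ => ⟨0, hq1⟩, rfl⟩⟩
  · rintro _ ⟨τ, rfl⟩ i
    simp only
    split_ifs with h
    · exact ⟨rad_nonneg _ _, rad_lt_one (hkpos i) _⟩
    · norm_num
  · rintro _ ⟨τ, rfl⟩ i hi
    simp only
    rw [dif_pos hi, dif_pos (by omega : i < L)]
    set j := (τ ⟨i, by omega⟩ : ℕ) + 1 with hj
    set j' := (τ ⟨i + 1, hi⟩ : ℕ) + 1 with hj'
    have hj'q : j' ≤ q := by
      rw [hj']; exact (τ ⟨i + 1, hi⟩).2
    have hkk : k i = k (i + 1) * K := by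
      rw [hk]
      simp only
      rw [← pow_succ]
      congr 1; omega
    rw [← pow_le_pow_iff_left₀ (rad_nonneg _ _) (rad_nonneg _ _) (hkpos i).ne', rad_pow (hkpos i)]
    conv_lhs => rw [hkk, pow_mul, rad_pow (hkpos (i + 1))]
    have h1 : (1 - (1 / 2 : ℝ) ^ j') ^ K ≤ (1 - 1 / (K : ℝ)) ^ K := by
      apply pow_le_pow_left₀ (base_nonneg j')
      have h2 : 1 / (K : ℝ) = (1 / 2) ^ q := by rw [hK]; push_cast; rw [one_div_pow]
      rw [h2]
      have := pow_le_pow_of_le_one (by norm_num : (0 : ℝ) ≤ 1 / 2) (by norm_num) hj'q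
      linarith
    have h2 : (1 - 1 / (K : ℝ)) ^ K ≤ Real.exp (-1) :=
      Real.one_sub_div_pow_le_exp_neg (by
        have : 1 ≤ K := by rw [hK]; exact Nat.one_le_two_pow
        exact_mod_cast this)
    have h3 : Real.exp (-1) ≤ 1 / 2 := by
      rw [Real.exp_neg, one_div]
      apply inv_anti₀ (by norm_num)
      have := Real.add_one_le_exp (1 : ℝ)
      linarith
    have h4 : (1 / 2 : ℝ) ^ j ≤ 1 / 2 := by
      have := pow_le_pow_of_le_one (by norm_num : (0 : ℝ) ≤ 1 / 2) (by norm_num)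
        (show 1 ≤ j by rw [hj]; omega)
      simpa using this
    linarith
  · intro o
    have hsub : {θ : TInf | ∀ ρ ∈ R, Real.exp (-1 / 2) <
        ∏ i ∈ range L, ‖V (coef (cc q) (ss q) (k i)) (ρ i) (θ (o + i))‖} ⊆
        {θ : TInf | ∑ i ∈ range L, Y q (k i • θ (o + i)) < 1} := by
      intro θ hθ
      simp only [Set.mem_ofPred_eq] at hθ ⊢
      by_contra hcon
      push Not at hcon
      choose j hj1 hjq hj using fun i => pointwise q hq1 (hkpos i) (θ (o + i))
      set ρ0 : ℕ → ℝ := fun i : ℕ => if i < L then rad (k i) (j i) else 0 with hρ0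
      have hmem : ρ0 ∈ R := by
        refine ⟨fun i => ⟨j i - 1, by have := hj1 i; have := hjq i; omega⟩, ?_⟩
        funext i
        simp only [hρ0]
        by_cases h : i < L
        · rw [dif_pos h, if_pos h]
          have := hj1 i
          congr 1
          omega
        · rw [dif_neg h, if_neg h]
      have h1 := hθ _ hmem
      have h2 : ∏ i ∈ range L, ‖V (coef (cc q) (ss q) (k i)) (ρ0 i) (θ (o + i))‖ ≤
          Real.exp (-1 / 2) := by
        calc ∏ i ∈ range L, ‖V (coef (cc q) (ss q) (k i)) (ρ0 i) (θ (o + i))‖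
            ≤ ∏ i ∈ range L, Real.exp (-Y q (k i • θ (o + i)) / 2) := by
              apply Finset.prod_le_prod (fun _ _ => norm_nonneg _)
              intro i hi
              simp only [hρ0]
              rw [if_pos (mem_range.mp hi)]
              exact hj i
          _ = Real.exp (∑ i ∈ range L, (-Y q (k i • θ (o + i)) / 2)) := (Real.exp_sum _ _).symm
          _ ≤ Real.exp (-1 / 2) := by
              apply Real.exp_le_exp.mpr
              rw [← sum_div, sum_neg_distrib]
              linarith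
      linarith
    calc m.real _ ≤ m.real {θ : TInf | ∑ i ∈ range L, Y q (k i • θ (o + i)) < 1} :=
          measureReal_mono hsub (measure_ne_top _ _)
      _ ≤ Real.exp (1 - L * (q * (1 / 2) ^ q / 512)) := prob_bound q L k hkpos o
      _ ≤ (1 / 2 : ℝ) ^ J := by
          have e1 : (L : ℝ) * (q * (1 / 2) ^ q / 512) = 4 * (J + 2) := by
            have : (L : ℝ) * (q * (1 / 2) ^ q / 512) = (L * (1 / 2) ^ q) * q / 512 := by ring
            rw [this, hLr, hq]
            push_cast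
            have h3 : (1 / 4 : ℝ) ^ J * 4 ^ J = 1 := by rw [← mul_pow]; norm_num
            linear_combination (4 * ((J : ℝ) + 2)) * h3
          rw [e1]
          have h4 : (1 / 2 : ℝ) ^ J = Real.exp (-(J * Real.log 2)) := by
            rw [Real.exp_neg, mul_comm, Real.exp_mul, Real.exp_log (by norm_num), Real.rpow_natCast,
              one_div, inv_pow]
          rw [h4]
          apply Real.exp_le_exp.mpr
          have h5 : Real.log 2 ≤ 1 := by
            have := Real.log_le_sub_one_of_pos (show (0 : ℝ) < 2 by norm_num)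
            linarith
          have h6 : (0 : ℝ) ≤ J := Nat.cast_nonneg J
          nlinarith

end Q210.HT
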