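import Pool.Agent.Q210.HT.Conv

open MeasureTheory Filter Topology Finset

namespace Q210.HT

variable {a : ℕ → ℕ → ℂ}

/-- the limit is in `H^∞(T^∞)` -/
lemma hInfty_of_limit (hsum : ∀ n, Summable fun d => ‖a n d‖)
    (hle : ∀ n, ∀ r : ℝ, 0 ≤ r → r ≤ 1 → ∀ t, ‖V (a n) r t‖ ≤ 1)
    {off : ℕ → ℕ} (hoff : Tendsto off atTop atTop)
    {f : TInf → ℂ} (hf : Measurable f) (hf1 : ∀ᵐ θ ∂m, ‖f θ‖ ≤ 1)
    (hlim : ∀ᵐ θ ∂m, Tendsto (fun N => F a (off N) θ) atTop (𝓝 (f θ))) : HInfty f := by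
  refine ⟨memLp_top_of_bound hf.aestronglyMeasurable 1 hf1, ?_⟩
  rintro α ⟨n0, hn0⟩
  have hchi : Continuous fun θ : TInf => ∏ n ∈ α.support, (fourier (-α n) (θ n) : ℂ) := by
    apply continuous_finsetProd
    intro n _
    fun_prop
  have hchi1 : ∀ θ : TInf, ‖∏ n ∈ α.support, (fourier (-α n) (θ n) : ℂ)‖ = 1 := by
    intro θ
    rw [norm_prod]
    exact prod_eq_one fun n _ => norm_fourier_eq_one _ _
  have ht : Tendsto (fun N => ∫ θ, (∏ n ∈ α.support, (fourier (-α n) (θ n) : ℂ)) * F a (off N) θ ∂m)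
      atTop (𝓝 (∫ θ, (∏ n ∈ α.support, (fourier (-α n) (θ n) : ℂ)) * f θ ∂m)) := by
    apply tendsto_integral_of_dominated_convergence (fun _ => 1)
    · intro N
      exact (hchi.mul (F_continuous hsum _)).aestronglyMeasurable
    · exact integrable_const _
    · intro N
      refine ae_of_all _ fun θ => ?_
      rw [norm_mul, hchi1, one_mul]
      exact F_norm_le hle _ _
    · filter_upwards [hlim] with θ hθ
      exact tendsto_const_nhds.mul hθ
  have hzero : ∀ᶠ N in atTop,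
      ∫ θ, (∏ n ∈ α.support, (fourier (-α n) (θ n) : ℂ)) * F a (off N) θ ∂m = 0 := by
    obtain ⟨M, hM⟩ : ∃ M, α.support ⊆ range M := Finset.exists_nat_subset_range _
    filter_upwards [hoff.eventually_ge_atTop M] with N hN
    have hsub : α.support ⊆ range (off N) := hM.trans (range_subset_range.mpr hN)
    have hn0' : n0 ∈ range (off N) := hsub (Finsupp.mem_support_iff.mpr hn0.ne)
    have e : ∀ θ : TInf, (∏ n ∈ α.support, (fourier (-α n) (θ n) : ℂ)) * F a (off N) θ =
        ∏ n ∈ range (off N), (fun n (t : UnitAddCircle) => fourier (-α n) t * V (a n) 1 t) n (θ n) := by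
      intro θ
      rw [prod_subset hsub (fun n _ hn => by
        rw [Finsupp.notMem_support_iff.mp hn]; simp)]
      unfold F
      rw [← prod_mul_distrib]
    rw [integral_congr_ae (ae_of_all _ e), integral_prod_coord (range (off N))
      (fun n (t : UnitAddCircle) => fourier (-α n) t * V (a n) 1 t)]
    · apply prod_eq_zero hn0'
      have := integral_fourier_mul_V (a n0) (hsum n0) (α n0)
      rw [if_neg (by omega)] at this
      exact this
    · intro n
      have := V_continuous (a n) (hsum n) (r := 1) (by norm_num) le_rfl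
      fun_prop
  have h0 : Tendsto (fun _ : ℕ => (0 : ℂ)) atTop
      (𝓝 (∫ θ, (∏ n ∈ α.support, (fourier (-α n) (θ n) : ℂ)) * f θ ∂m)) :=
    ht.congr' hzero
  exact (tendsto_nhds_unique h0 tendsto_const_nhds)

/-- radial values of the partial products -/
lemma radialValue_F (hsum : ∀ n, Summable fun d => ‖a n d‖) (r : ℕ →₀ ℝ)
    (hr0 : ∀ n, 0 ≤ r n) (hr1 : ∀ n, r n < 1) (M : ℕ) (hM : r.support ⊆ range M) (θ : TInf) :
    radialValue (F a M) r θ = ∏ n ∈ range M, V (a n) (r n) (θ n) := by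
  unfold radialValue
  have e : ∀ φ : TInf, ((∏ n ∈ r.support, poisson (r n) (θ n - φ n) : ℝ) : ℂ) * F a M φ =
      ∏ n ∈ range M, (fun n (t : UnitAddCircle) =>
        ((poisson (r n) (θ n - t) : ℝ) : ℂ) * V (a n) 1 t) n (φ n) := by
    intro φ
    rw [prod_subset hM (fun n _ hn => by
      rw [Finsupp.notMem_support_iff.mp hn]; exact poisson_zero _)]
    unfold F
    push_cast
    rw [← prod_mul_distrib]
  rw [integral_congr_ae (ae_of_all _ e), integral_prod_coord (range M) (fun n (t : UnitAddCircle) =>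
        ((poisson (r n) (θ n - t) : ℝ) : ℂ) * V (a n) 1 t)]
  · refine prod_congr rfl fun n _ => ?_
    exact integral_poisson_mul_V (a n) (hsum n) (hr0 n) (hr1 n) (θ n)
  · intro n
    have h1 := V_continuous (a n) (hsum n) (r := 1) (by norm_num) le_rfl
    have h2 : Continuous fun t : UnitAddCircle => ((poisson (r n) (θ n - t) : ℝ) : ℂ) :=
      Complex.continuous_ofReal.comp ((poisson_continuous (hr0 n) (hr1 n)).comp (by fun_prop))
    exact h2.mul h1

lemma kernel_continuous (r : ℕ →₀ ℝ) (hr0 : ∀ n, 0 ≤ r n) (hr1 : ∀ n, r n < 1) (θ : TInf) :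
    Continuous fun φ : TInf => ((∏ n ∈ r.support, poisson (r n) (θ n - φ n) : ℝ) : ℂ) := by
  apply Complex.continuous_ofReal.comp
  apply continuous_finsetProd
  intro n _
  exact (poisson_continuous (hr0 n) (hr1 n)).comp (by fun_prop)

/-- upper bound for radial values of the limit function -/
lemma radialValue_le (hsum : ∀ n, Summable fun d => ‖a n d‖)
    (hle : ∀ n, ∀ r : ℝ, 0 ≤ r → r ≤ 1 → ∀ t, ‖V (a n) r t‖ ≤ 1)
    {off : ℕ → ℕ} (hoff : Monotone off)
    {f : TInf → ℂ}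
    (hlim : ∀ᵐ θ ∂m, Tendsto (fun N => F a (off N) θ) atTop (𝓝 (f θ)))
    (r : ℕ →₀ ℝ) (hr0 : ∀ n, 0 ≤ r n) (hr1 : ∀ n, r n < 1) (J : ℕ)
    (hJ : r.support ⊆ range (off J)) (θ : TInf) :
    ‖radialValue f r θ‖ ≤ ∏ n ∈ range (off J), ‖V (a n) (r n) (θ n)‖ := by
  have hK := kernel_continuous r hr0 hr1 θ
  obtain ⟨C, hC⟩ : ∃ C, ∀ φ : TInf,
      ‖((∏ n ∈ r.support, poisson (r n) (θ n - φ n) : ℝ) : ℂ)‖ ≤ C := by
    obtain ⟨x, -, hx⟩ := isCompact_univ.exists_isMaxOn (Set.univ_nonempty (α := TInf))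
      (hK.norm.continuousOn)
    exact ⟨_, fun φ => hx (Set.mem_univ φ)⟩
  have ht : Tendsto (fun N => radialValue (F a (off N)) r θ) atTop (𝓝 (radialValue f r θ)) := by
    unfold radialValue
    apply tendsto_integral_of_dominated_convergence (fun _ => C)
    · intro N
      exact (hK.mul (F_continuous hsum _)).aestronglyMeasurable
    · exact integrable_const _
    · intro N
      refine ae_of_all _ fun φ => ?_
      rw [norm_mul]
      have h1 := hC φ
      have h2 := F_norm_le hle (off N) φ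
      have h3 := norm_nonneg ((∏ n ∈ r.support, poisson (r n) (θ n - φ n) : ℝ) : ℂ)
      nlinarith [norm_nonneg (F a (off N) φ)]
    · filter_upwards [hlim] with φ hφ
      exact tendsto_const_nhds.mul hφ
  refine le_of_tendsto ht.norm ?_
  filter_upwards [eventually_ge_atTop J] with N hN
  have hsub : r.support ⊆ range (off N) := hJ.trans (range_subset_range.mpr (hoff hN))
  rw [radialValue_F hsum r hr0 hr1 (off N) hsub θ, norm_prod,
    ← prod_range_mul_prod_Ico _ (hoff hN)]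
  apply mul_le_of_le_one_right (prod_nonneg fun _ _ => norm_nonneg _)
  exact prod_le_one (fun _ _ => norm_nonneg _) fun n _ => hle n _ (hr0 n) (hr1 n).le _

/-- uniform approximation of the partial products by radii near 1 -/
lemma level_approx (hsum : ∀ n, Summable fun d => ‖a n d‖)
    (hle : ∀ n, ∀ r : ℝ, 0 ≤ r → r ≤ 1 → ∀ t, ‖V (a n) r t‖ ≤ 1) (N : ℕ) {ε : ℝ} (hε : 0 < ε) :
    ∃ b : ℝ, b < 1 ∧ ∀ r : ℝ, 0 ≤ r → b ≤ r → r ≤ 1 → ∀ θ : TInf,
      ∏ n ∈ range N, ‖V (a n) r (θ n)‖ ≤ ‖F a N θ‖ + ε := by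
  have hω : Tendsto (fun r : ℝ => ∑ n ∈ range N, ∑' d, ‖a n d‖ * (1 - r ^ d)) (𝓝[Set.Icc 0 1] 1)
      (𝓝 (∑ n ∈ range N, ∑' d, ‖a n d‖ * (1 - 1 ^ d))) := by
    apply tendsto_finsetSum
    intro n _
    apply tendsto_tsum_of_dominated_convergence (hsum n)
    · intro d
      apply Tendsto.mono_left _ nhdsWithin_le_nhds
      apply Tendsto.const_mul
      apply Tendsto.sub tendsto_const_nhds
      exact (continuous_pow d).tendsto 1
    · filter_upwards [self_mem_nhdsWithin] with r hr d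
      have h1 : r ^ d ≤ 1 := pow_le_one₀ hr.1 hr.2
      have h2 : 0 ≤ r ^ d := pow_nonneg hr.1 d
      rw [Real.norm_of_nonneg (mul_nonneg (norm_nonneg _) (by linarith))]
      exact mul_le_of_le_one_right (norm_nonneg _) (by linarith)
  have h0 : ∑ n ∈ range N, ∑' d, ‖a n d‖ * (1 - (1 : ℝ) ^ d) = 0 := by simp
  rw [h0] at hω
  have hev := hω.eventually_lt_const hε
  rw [eventually_nhdsWithin_iff, Metric.eventually_nhds_iff] at hev
  obtain ⟨δ, hδ, hev⟩ := hev
  refine ⟨1 - δ / 2, by linarith, fun r hr0 hbr hr1 θ => ?_⟩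
  have h1 := hev (y := r) (by rw [Real.dist_eq, abs_sub_lt_iff]; constructor <;> linarith) ⟨hr0, hr1⟩
  have h2 : ∀ n, ‖V (a n) r (θ n) - V (a n) 1 (θ n)‖ ≤ ∑' d, ‖a n d‖ * (1 - r ^ d) := by
    intro n
    unfold V
    rw [← (V_summable (a n) (hsum n) hr0 hr1 (θ n)).tsum_sub
      (V_summable (a n) (hsum n) (by norm_num) le_rfl (θ n))]
    apply tsum_of_norm_bounded (g := fun d => ‖a n d‖ * (1 - r ^ d))
    · apply Summable.hasSum
      refine Summable.of_nonneg_of_le (fun d => ?_) (fun d => ?_) (hsum n)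
      · exact mul_nonneg (norm_nonneg _) (by linarith [pow_le_one₀ (n := d) hr0 hr1])
      · exact mul_le_of_le_one_right (norm_nonneg _) (by linarith [pow_nonneg hr0 d])
    · intro d
      have e : a n d * (r : ℂ) ^ d * fourier (d : ℤ) (θ n) -
          a n d * ((1 : ℝ) : ℂ) ^ d * fourier (d : ℤ) (θ n) =
          a n d * ((r ^ d - 1 : ℝ) : ℂ) * fourier (d : ℤ) (θ n) := by
        push_cast; ring
      rw [e, norm_mul, norm_mul, norm_fourier_eq_one, mul_one, Complex.norm_real, Real.norm_eq_abs,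
        abs_sub_comm, abs_of_nonneg (by linarith [pow_le_one₀ (n := d) hr0 hr1])]
  have h3 := norm_prod_sub_prod_le (range N) (fun n => V (a n) r (θ n)) (fun n => V (a n) 1 (θ n))
    (fun n => hle n r hr0 hr1 _) (fun n => hle n 1 (by norm_num) le_rfl _)
  have h4 : ∑ n ∈ range N, ‖V (a n) r (θ n) - V (a n) 1 (θ n)‖ ≤
      ∑ n ∈ range N, ∑' d, ‖a n d‖ * (1 - r ^ d) := sum_le_sum fun n _ => h2 n
  rw [← norm_prod]
  have h5 := norm_sub_norm_le (∏ n ∈ range N, V (a n) r (θ n)) (∏ n ∈ range N, V (a n) 1 (θ n))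
  unfold F
  linarith

end Q210.HT
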